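import Pool.Agent.Lib.MP_3c53be_lc.Df

/-! A cone lemma, and the closure of a canonical transfinite construction at a countable stage. -/

set_option linter.unusedSectionVars false

namespace Pool.Agent.Lib.MP_3c53be_lc

open Classical

variable {B : Set Bs} {α : Type} [Cd α]

noncomputable def eL : List ℕ ≃ ℕ := Denumerable.eqv (List ℕ)

theorem hist_succ (z : Bs) (n : ℕ) : hist z (n + 1) = hist z n ++ [z n] := by
  unfold hist
  rw [List.ofFn_succ_last]
  rfl

/-- Codes of the positions of the run in which the player of parity `b` follows `f`. -/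
noncomputable def pc (b : ℕ) (f y : Bs) (n : ℕ) : ℕ :=
  Nat.rec (eL []) (fun n c => eL (eL.symm c ++ [if n % 2 = b then ap f c else ap y (n / 2)])) n

noncomputable def play (b : ℕ) (f y : Bs) : Bs :=
  fun n => if n % 2 = b then ap f (ap (pc b f y) n) else ap y (n / 2)

theorem pc_eq (b : ℕ) (f y : Bs) (n : ℕ) : pc b f y n = eL (hist (play b f y) n) := by
  induction n with
  | zero => rfl
  | succ n ih =>
    rw [hist_succ, ← eL.symm_apply_apply (hist (play b f y) n), ← ih]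
    rfl

def hs (k n : ℕ) : ℕ := if k = 2 then 2 * n else if k = 3 then 2 * n + 1 else Nat.pair (k - 4) n

noncomputable def op (k : ℕ) (x y : Bs) : Bs :=
  if k < 2 then play k x y else fun n => ap x (hs k n)

theorem df_op : Df B (fun p : ℕ × Bs × Bs => op p.1 p.2.1 p.2.2) := by
  have h2 : Df B (fun n : ℕ => n % 2) := df_nat _
  have h3 : Df B (fun n : ℕ => n / 2) := df_nat _
  have h1 : Df B (fun p : ℕ × Bs × Bs => pc p.1 p.2.1 p.2.2) :=
    Df.natRec (Df.const _) (Df.nat2 (fun c m => eL (eL.symm c ++ [m])) (by fun_prop)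
      (Df.ite (Df.eq (h2.comp (by fun_prop)) (by fun_prop)) (by fun_prop)
        (Df.ap (by fun_prop) (h3.comp (by fun_prop)))))
  refine Df.ite (by fun_prop) (Df.lam ?_) (Df.lam (Df.ap (by fun_prop)
    (Df.nat2 hs (by fun_prop) (by fun_prop))))
  exact Df.ite (Df.eq (h2.comp (by fun_prop)) (by fun_prop))
    (Df.ap (by fun_prop) (Df.ap (h1.comp (by fun_prop)) (by fun_prop)))
    (Df.ap (by fun_prop) (h3.comp (by fun_prop)))

/-- `x` lies in every enumerated set that contains `d` and is closed under the operations. -/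
def Gen (d x : Bs) : Prop :=
  ∀ e : ℕ → Bs, (∀ k n m, ∃ l, ap e l = op k (ap e n) (ap e m)) → (∃ n, ap e n = d) →
    ∃ n, ap e n = x

theorem df_gen : Df B (fun p : Bs × Bs => Gen p.1 p.2) := by
  have h := df_op (B := B)
  unfold Gen
  fun_prop

theorem Gen.refl (d : Bs) : Gen d d := fun _ _ h => h

theorem Gen.trans {d x y : Bs} (h : Gen d x) (h' : Gen x y) : Gen d y :=
  fun e he hd => h' e he (h e he hd)

theorem Gen.op {d x y : Bs} (h : Gen d x) (h' : Gen d y) (k : ℕ) : Gen d (op k x y) := by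
  intro e he hd
  obtain ⟨n, rfl⟩ := h e he hd
  obtain ⟨m, rfl⟩ := h' e he hd
  exact he k n m

theorem gen_col (d : Bs) (k : ℕ) : Gen d (col k d) := by
  have h := (Gen.refl d).op (Gen.refl d) (k + 4)
  have e : op (k + 4) d d = col k d := by
    funext n
    simp [op, hs, ap, col]
  exact e ▸ h

theorem countable_gen (d : Bs) : {x | Gen d x}.Countable := by
  let S : ℕ → Set Bs := fun n => Nat.rec {d} (fun _ T => T ∪ ⋃ k, Set.image2 (op k) T T) n
  have hc : ∀ n, (S n).Countable := by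
    intro n
    induction n with
    | zero => exact Set.countable_singleton d
    | succ n ih => exact ih.union (Set.countable_iUnion fun k => ih.image2 ih _)
  have hm : Monotone S := monotone_nat_of_le_succ fun n => Set.subset_union_left
  have hd : d ∈ ⋃ n, S n := Set.mem_iUnion.2 ⟨0, rfl⟩
  obtain ⟨e, he⟩ := (Set.countable_iUnion hc).exists_eq_range ⟨d, hd⟩
  refine (Set.countable_range e).mono fun x hx => hx e (fun k n m => ?_) (he ▸ hd : d ∈ Set.range e)
  obtain ⟨i, hi⟩ := Set.mem_iUnion.1 (he ▸ ⟨n, rfl⟩ : e n ∈ ⋃ n, S n)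
  obtain ⟨j, hj⟩ := Set.mem_iUnion.1 (he ▸ ⟨m, rfl⟩ : e m ∈ ⋃ n, S n)
  exact (he ▸ Set.mem_iUnion.2 ⟨max i j + 1, Or.inr (Set.mem_iUnion.2 ⟨k, Set.mem_image2_of_mem
    (hm (le_max_left i j) hi) (hm (le_max_right i j) hj)⟩)⟩ : op k (e n) (e m) ∈ Set.range e)

theorem cone (hD : ∀ X, ProjIn B X → Determined X) {P : Bs → Prop} (hP : Df B P)
    (inv : ∀ d d', Gen d d' → Gen d' d → P d → P d') :
    ∃ d0, (∀ d, Gen d d0 → P d) ∨ ∀ d, Gen d d0 → ¬ P d := by
  rcases hD {z | P z} (Df.projIn hP) with ⟨σ, h⟩ | ⟨τ, h⟩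
  · refine ⟨fun c => σ (eL.symm c), Or.inl fun d hd => ?_⟩
    have h1 : Gen d (play 0 _ d) := hd.op (Gen.refl d) 0
    have h2 := (Gen.refl (play 0 (fun c => σ (eL.symm c)) d)).op (Gen.refl _) 3
    have e : op 3 (play 0 (fun c => σ (eL.symm c)) d) (play 0 (fun c => σ (eL.symm c)) d) = d := by
      funext n
      have : (2 * n + 1) / 2 = n := by omega
      simp [op, hs, ap, play, this]
    rw [e] at h2
    refine inv _ _ h2 h1 (h _ fun n => ?_)
    rw [← eL.symm_apply_apply (hist _ _), ← pc_eq]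
    simp [play, ap]
  · refine ⟨fun c => τ (eL.symm c), Or.inr fun d hd hPd => ?_⟩
    have h1 : Gen d (play 1 _ d) := hd.op (Gen.refl d) 1
    have h2 := (Gen.refl (play 1 (fun c => τ (eL.symm c)) d)).op (Gen.refl _) 2
    have e : op 2 (play 1 (fun c => τ (eL.symm c)) d) (play 1 (fun c => τ (eL.symm c)) d) = d := by
      funext n
      simp [op, hs, ap, play]
    rw [e] at h2
    refine h _ (fun n => ?_) (inv _ _ h1 h2 hPd)
    rw [← eL.symm_apply_apply (hist _ _), ← pc_eq]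
    simp [play, ap]

/-- The sets coded by a real generated by `d`. -/
def GenS (d : Bs) (Y : Set ℕ) : Prop := ∃ x, Gen d x ∧ Y = {n | ap x n = 0}

theorem df_genS : Df B (fun p : Bs × Set ℕ => GenS p.1 p.2) := by
  have h := df_gen (B := B)
  unfold GenS
  fun_prop

theorem countable_genS (d : Bs) : {Y | GenS d Y}.Countable :=
  ((countable_gen d).image fun x => {n | ap x n = 0}).mono (by
    rintro _ ⟨x, h1, rfl⟩; exact ⟨x, h1, rfl⟩)

theorem no_new (hD : ∀ X, ProjIn B X → Determined X) {y : Bs → Set ℕ} (hy : Df B y)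
    (inv : ∀ d d', Gen d d' → Gen d' d → y d = y d') : ∃ d, GenS d (y d) := by
  choose c hc using fun k => cone hD (P := fun d => k ∈ y d) (by fun_prop)
    fun d d' h h' hk => inv d d' h h' ▸ hk
  let x : Bs := fun k => if ∀ d, Gen d (c k) → k ∈ y d then 0 else 1
  let d : Bs := mkc fun k => Nat.casesOn k x c
  have h0 : Gen d x := by simpa [d] using gen_col d 0
  have h1 : ∀ k, Gen d (c k) := fun k => by simpa [d] using gen_col d (k + 1)
  refine ⟨d, x, h0, Set.ext fun k => ?_⟩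
  simp only [x, ap, Set.mem_ofPred_eq, ite_eq_left_iff, one_ne_zero, imp_false, not_not]
  exact ⟨fun h => (hc k).resolve_right fun h' => h' d (h1 k) h, fun h => h d (h1 k)⟩

/-- Reflexive well-orders of their field. -/
structure WO (r : Set ℕ → Set ℕ → Prop) : Prop where
  refl : ∀ a b, r a b → r a a ∧ r b b
  anti : ∀ a b, r a b → r b a → a = b
  trans : ∀ a b c, r a b → r b c → r a c
  total : ∀ a b, r a a → r b b → r a b ∨ r b a
  wf : ∀ g : ℕ → Set ℕ, ¬ ∀ n, r (ap g (n + 1)) (ap g n) ∧ ap g (n + 1) ≠ ap g n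

theorem WO.least {r : Set ℕ → Set ℕ → Prop} (h : WO r) {P : Set ℕ → Prop} {v : Set ℕ}
    (h1 : r v v) (h2 : P v) : ∃ u, r u u ∧ P u ∧ ∀ w, r w w → P w → r u w := by
  have hw : WellFounded fun a b => r a b ∧ a ≠ b :=
    wellFounded_iff_isEmpty_descending_chain.2 ⟨fun g => h.wf g.1 g.2⟩
  obtain ⟨u, hu, hm⟩ := hw.has_min {u | r u u ∧ P u} ⟨v, h1, h2⟩
  refine ⟨u, hu.1, hu.2, fun w h3 h4 => (h.total u w hu.1 h3).elim id fun h5 => ?_⟩
  by_cases e : w = u
  · exact e ▸ h3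
  · exact absurd ⟨h5, e⟩ (hm w ⟨h3, h4⟩)

def below (r : Set ℕ → Set ℕ → Prop) (v a b : Set ℕ) : Prop := r a b ∧ r b v ∧ b ≠ v

/-- Every element is the new element attached to its initial segment. -/
def Good (new : (Set ℕ → Set ℕ → Prop) → Set ℕ) (r : Set ℕ → Set ℕ → Prop) : Prop :=
  WO r ∧ ∀ v, r v v → v = new (below r v)

variable {new : (Set ℕ → Set ℕ → Prop) → Set ℕ}

theorem WO.below_below {r : Set ℕ → Set ℕ → Prop} (h : WO r) {a b : Set ℕ} (h1 : r a b)
    (h2 : a ≠ b) : below (below r b) a = below r a := by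
  funext u v
  refine propext ⟨fun h3 => ⟨h3.1.1, h3.2.1.1, h3.2.2⟩, fun h3 => ?_⟩
  exact ⟨⟨h3.1, h.trans _ _ _ h3.2.1 h1, fun e => h2 (h.anti _ _ h1 (e ▸ h3.2.1))⟩,
    ⟨h3.2.1, h1, h2⟩, h3.2.2⟩

theorem WO.segment {r : Set ℕ → Set ℕ → Prop} (h : WO r) {K : Set ℕ → Prop}
    (hK : ∀ a b, r a b → K b → K a) :
    (fun a b => r a b ∧ K b) = r ∨ ∃ v, r v v ∧ ¬ K v ∧ (fun a b => r a b ∧ K b) = below r v := by
  by_cases h1 : ∃ v, r v v ∧ ¬ K v
  · obtain ⟨v, h2, h3⟩ := h1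
    obtain ⟨u, h4, h5, h6⟩ := h.least (P := fun v => ¬ K v) h2 h3
    refine Or.inr ⟨u, h4, h5, funext fun a => funext fun b => propext (and_congr_right fun h7 => ?_)⟩
    have h8 := (h.refl a b h7).2
    constructor
    · intro h9
      exact ⟨(h.total b u h8 h4).resolve_right fun h10 => h5 (hK _ _ h10 h9), fun e => h5 (e ▸ h9)⟩
    · intro h9
      by_contra h10
      exact h9.2 (h.anti _ _ h9.1 (h6 b h8 h10))
  · push Not at h1
    exact Or.inl (funext fun a => funext fun b =>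
      propext (and_iff_left_of_imp fun h2 => h1 b (h.refl a b h2).2))

theorem Good.unique {r r' : Set ℕ → Set ℕ → Prop} (h : Good new r) (h' : Good new r')
    {E : Set ℕ → Prop} (h1 : ∀ v, r v v → E v) (h1' : ∀ v, r' v v → E v) (h2 : ¬ E (new r))
    (h2' : ¬ E (new r')) : r = r' := by
  have key : ∀ {r r' : Set ℕ → Set ℕ → Prop}, WO r → WO r' → ∀ a b, r a b →
      (r b b ∧ r' b b ∧ below r b = below r' b) →
      r' a b ∧ r a a ∧ r' a a ∧ below r a = below r' a := by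
    intro r r' h h' a b h3 h4
    by_cases e : a = b
    · subst e; exact ⟨h4.2.1, h4⟩
    · have h5 : below r' b a a := h4.2.2 ▸ (⟨(h.refl a b h3).1, h3, e⟩ : below r b a a)
      refine ⟨h5.2.1, (h.refl a b h3).1, h5.1, ?_⟩
      rw [← h.below_below h3 e, h4.2.2, h'.below_below h5.2.1 e]
  set K : Set ℕ → Prop := fun b => r b b ∧ r' b b ∧ below r b = below r' b with hK
  have sy : ∀ b, K b → r' b b ∧ r b b ∧ below r' b = below r b := fun b h =>
    ⟨h.2.1, h.1, h.2.2.symm⟩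
  have e : (fun a b => r a b ∧ K b) = fun a b => r' a b ∧ K b :=
    funext fun a => funext fun b => propext (and_congr_left fun h3 =>
      ⟨fun h4 => (key h.1 h'.1 a b h4 h3).1, fun h4 => (key h'.1 h.1 a b h4 (sy b h3)).1⟩)
  rcases h.1.segment (K := K) fun a b h3 h4 => (key h.1 h'.1 a b h3 h4).2 with s | ⟨v, s1, s2, s⟩ <;>
  rcases h'.1.segment (K := K) fun a b h3 h4 => by
    have h5 := (key h'.1 h.1 a b h3 (sy b h4)).2
    exact ⟨h5.2.1, h5.1, h5.2.2.symm⟩ with t | ⟨u, t1, t2, t⟩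
  · rw [← s, e, t]
  · exact absurd (h1' u t1) (by rw [h'.2 u t1, ← t, ← e, s]; exact h2)
  · exact absurd (h1 v s1) (by rw [h.2 v s1, ← s, e, t]; exact h2')
  · have e1 : below r v = below r' u := by rw [← s, e, t]
    have e2 : v = u := by rw [h.2 v s1, h'.2 u t1, e1]
    subst e2
    exact absurd ⟨s1, t1, e1⟩ s2

theorem exists_good (new : (Set ℕ → Set ℕ → Prop) → Set ℕ) {E : Set ℕ → Prop}
    (hE : {v | E v}.Countable) :
    ∃ r, Good new r ∧ (∀ v, r v v → E v) ∧ (¬ E (new r) ∨ r (new r) (new r)) := by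
  let y : Ordinal.{0} → Set ℕ := wellFounded_lt.fix fun a ih =>
    new fun u v => ∃ b c, ∃ (hc : c < a) (hb : b ≤ c), u = ih b (hb.trans_lt hc) ∧ v = ih c hc
  let R : Ordinal.{0} → Set ℕ → Set ℕ → Prop := fun a u v =>
    ∃ b c, c < a ∧ b ≤ c ∧ u = y b ∧ v = y c
  have hy : ∀ a, y a = new (R a) := fun a => by
    simp only [y, R]
    rw [WellFounded.fix_eq]
    simp only [exists_prop]
  have hex : ∃ a, ¬ E (y a) ∨ ∃ b < a, y b = y a := by
    by_contra hn
    push Not at hn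
    have : Countable {v | E v} := hE
    refine not_countable (α := Ordinal.{0}) (Function.Injective.countable
      (f := fun a => (⟨y a, (hn a).1⟩ : {v | E v})) fun a b e => ?_)
    have e' : y a = y b := congrArg Subtype.val e
    rcases lt_trichotomy a b with h | h | h
    · exact absurd e' ((hn b).2 a h)
    · exact h
    · exact absurd e'.symm ((hn a).2 b h)
  obtain ⟨a, ha, hm⟩ := wellFounded_lt.has_min {a | ¬ E (y a) ∨ ∃ b < a, y b = y a} hex
  have inj : ∀ b c, b < a → c < a → y b = y c → b = c := by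
    intro b c hb hc e
    rcases lt_trichotomy b c with h | h | h
    · exact absurd hc (hm c (Or.inr ⟨b, h, e⟩))
    · exact h
    · exact absurd hb (hm b (Or.inr ⟨c, h, e.symm⟩))
  have hR : ∀ b c, b < a → c < a → (R a (y b) (y c) ↔ b ≤ c) := fun b c hb hc =>
    ⟨fun ⟨b', c', h1, h2, h3, h4⟩ => by
      rwa [inj b b' hb (h2.trans_lt h1) h3, inj c c' hc h1 h4], fun h => ⟨b, c, hc, h, rfl, rfl⟩⟩
  refine ⟨R a, ⟨⟨?_, ?_, ?_, ?_, ?_⟩, ?_⟩, ?_, ?_⟩
  · rintro _ _ ⟨b, c, h1, h2, rfl, rfl⟩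
    exact ⟨⟨b, b, h2.trans_lt h1, le_rfl, rfl, rfl⟩, ⟨c, c, h1, le_rfl, rfl, rfl⟩⟩
  · rintro _ _ ⟨b, c, h1, h2, rfl, rfl⟩ h3
    rw [le_antisymm h2 ((hR c b h1 (h2.trans_lt h1)).1 h3)]
  · rintro _ _ _ ⟨b, c, h1, h2, rfl, rfl⟩ ⟨b', c', h3, h4, h5, rfl⟩
    exact ⟨b, c', h3, h2.trans (inj c b' h1 (h4.trans_lt h3) h5 ▸ h4), rfl, rfl⟩
  · rintro _ _ ⟨-, b, h1, -, -, rfl⟩ ⟨-, c, h2, -, -, rfl⟩
    rw [hR b c h1 h2, hR c b h2 h1]
    exact le_total b c
  · intro g hg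
    choose b c h1 h2 h3 h4 using fun n => (hg n).1
    refine (wellFounded_iff_isEmpty_descending_chain.1 (wellFounded_lt (α := Ordinal.{0}))).false
      ⟨c, fun n => ?_⟩
    have e := inj _ _ (h1 (n + 1)) ((h2 n).trans_lt (h1 n)) ((h4 (n + 1)).symm.trans (h3 n))
    exact lt_of_le_of_ne (e ▸ h2 n) fun e' => (hg n).2 (by rw [h4 (n + 1), h4 n, e'])
  · rintro _ ⟨-, c, h1, -, -, rfl⟩
    refine (hy c).trans (congrArg new ?_)
    funext u v
    refine propext ⟨?_, ?_⟩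
    · rintro ⟨b', c', h2, h3, rfl, rfl⟩
      exact ⟨⟨b', c', h2.trans h1, h3, rfl, rfl⟩, ⟨c', c, h1, h2.le, rfl, rfl⟩,
        fun e => h2.ne (inj _ _ (h2.trans h1) h1 e)⟩
    · rintro ⟨⟨b', c', h2, h3, rfl, rfl⟩, h4, h5⟩
      exact ⟨b', c', lt_of_le_of_ne ((hR _ _ h2 h1).1 h4) fun e => h5 (e ▸ rfl), h3, rfl, rfl⟩
  · rintro _ ⟨-, c, h1, -, -, rfl⟩
    by_contra h2
    exact hm c (Or.inl h2) h1
  · rw [← hy a]
    exact ha.imp id fun ⟨b, h1, h2⟩ => ⟨b, b, h1, le_rfl, h2.symm, h2.symm⟩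

/-- The relation enumerated by `w`. -/
def rel (w : ℕ → Prop × Set ℕ × Set ℕ) (u v : Set ℕ) : Prop :=
  ∃ n, (ap w n).1 ∧ (ap w n).2.1 = u ∧ (ap w n).2.2 = v

theorem df_rel : Df B (fun p : (ℕ → Prop × Set ℕ × Set ℕ) × Set ℕ × Set ℕ => rel p.1 p.2.1 p.2.2) := by
  unfold rel
  fun_prop

theorem exists_rel {r : Set ℕ → Set ℕ → Prop} (h : WO r) (hc : {v | r v v}.Countable) :
    ∃ w, rel w = r := by
  have h1 : (insert (∅, ∅) {p : Set ℕ × Set ℕ | r p.1 p.2}).Countable :=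
    ((hc.prod hc).mono fun p hp => h.refl _ _ hp).insert _
  obtain ⟨e, he⟩ := h1.exists_eq_range (Set.insert_nonempty _ _)
  refine ⟨fun n => (r (e n).1 (e n).2, e n), funext fun u => funext fun v => propext ⟨?_, ?_⟩⟩
  · rintro ⟨n, h2, rfl, rfl⟩; exact h2
  · intro h2
    obtain ⟨n, hn⟩ : (u, v) ∈ Set.range e := he ▸ Or.inr h2
    exact ⟨n, by simp [ap, hn, h2]⟩

theorem exists_closed (hD : ∀ X, ProjIn B X → Determined X)
    (hnew : Df B (fun w => new (rel w))) :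
    ∃ r, WO r ∧ {v | r v v}.Countable ∧ r (new r) (new r) := by
  by_contra hn
  have hr := df_rel (B := B)
  have hg := df_genS (B := B)
  have h1 : Df B (fun p : (ℕ → Prop × Set ℕ × Set ℕ) × Set ℕ => new (below (rel p.1) p.2)) := by
    refine (hnew.comp (g := fun p : (ℕ → Prop × Set ℕ × Set ℕ) × Set ℕ => fun n =>
      ((ap p.1 n).1 ∧ rel p.1 (ap p.1 n).2.2 p.2 ∧ (ap p.1 n).2.2 ≠ p.2, (ap p.1 n).2))
      (Df.lam (by fun_prop))).congr fun p => congrArg new ?_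
    funext u v
    refine propext ⟨?_, ?_⟩
    · rintro ⟨n, ⟨h1, h2⟩, rfl, rfl⟩; exact ⟨⟨n, h1, rfl, rfl⟩, h2⟩
    · rintro ⟨⟨n, h1, rfl, rfl⟩, h2⟩; exact ⟨n, ⟨h1, h2⟩, rfl, rfl⟩
  have h2 : Df B (fun w => Good new (rel w)) := by
    refine Df.and (Df.of_iff (P := fun w => (∀ a b, rel w a b → rel w a a ∧ rel w b b) ∧
      (∀ a b, rel w a b → rel w b a → a = b) ∧ (∀ a b c, rel w a b → rel w b c → rel w a c) ∧
      (∀ a b, rel w a a → rel w b b → rel w a b ∨ rel w b a) ∧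
      ∀ g : ℕ → Set ℕ, ¬ ∀ n, rel w (ap g (n + 1)) (ap g n) ∧ ap g (n + 1) ≠ ap g n)
      (by fun_prop) fun w => ⟨fun h => ⟨h.1, h.2.1, h.2.2.1, h.2.2.2.1, h.2.2.2.2⟩,
        fun h => ⟨h.1, h.2, h.3, h.4, h.5⟩⟩) ?_
    exact Df.forall (Df.imp (by fun_prop) (Df.eq (by fun_prop) h1))
  obtain ⟨d, hd⟩ := no_new hD (y := fun d => {k | ∃ w, Good new (rel w) ∧
    (∀ v, rel w v v → GenS d v) ∧ ¬ GenS d (new (rel w)) ∧ k ∈ new (rel w)})
    (by
      refine Df.setOf (Df.exists (Df.and (h2.comp (by fun_prop)) (Df.and (by fun_prop)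
        (Df.and (Df.not ?_) (Df.mem (by fun_prop) (hnew.comp (by fun_prop)))))))
      exact hg.comp (g := fun p : (Bs × ℕ) × (ℕ → Prop × Set ℕ × Set ℕ) => (p.1.1, new (rel p.2)))
        (Df.prodMk (by fun_prop) (hnew.comp (by fun_prop))))
    (by
      intro d d' h h'
      have e : GenS d = GenS d' := funext fun Y => propext
        ⟨fun ⟨x, h3, h4⟩ => ⟨x, h'.trans h3, h4⟩, fun ⟨x, h3, h4⟩ => ⟨x, h.trans h3, h4⟩⟩
      rw [e])
  obtain ⟨r, h3, h4, h5⟩ := exists_good new (countable_genS d)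
  have h6 : {v | r v v}.Countable := (countable_genS d).mono h4
  have h7 := h5.resolve_right fun h => hn ⟨r, h3.1, h6, h⟩
  obtain ⟨w, rfl⟩ := exists_rel h3.1 h6
  refine h7 (Eq.mp (congrArg (GenS d) (Set.ext fun k => ?_)) hd)
  refine ⟨?_, fun h => ⟨w, h3, h4, h7, h⟩⟩
  rintro ⟨w', a1, a2, a3, a4⟩
  rwa [h3.unique a1 h4 a2 h7 a3]

end Pool.Agent.Lib.MP_3c53be_lc
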