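import Mathlib

/-! Definitions: mad families, determined sets, sets projective in a given set. -/

namespace Pool.Agent.Lib.MP_3c53be_lc

/-- Maximal almost disjoint families of infinite subsets of `ℕ`. -/
def IsMad (A : Set (Set ℕ)) : Prop :=
  (∀ a ∈ A, a.Infinite) ∧ (∀ a ∈ A, ∀ b ∈ A, a ≠ b → (a ∩ b).Finite) ∧
    ∀ x : Set ℕ, x.Infinite → ∃ a ∈ A, (a ∩ x).Infinite

/-- The first `n` moves of the run `z`. -/
def hist (z : ℕ → ℕ) (n : ℕ) : List ℕ := List.ofFn fun i : Fin n => z i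

/-- One of the two players has a winning strategy in the game with payoff set `X`; player I makes
the even moves and wins iff the run lies in `X`. -/
def Determined (X : Set (ℕ → ℕ)) : Prop :=
  (∃ σ : List ℕ → ℕ, ∀ z : ℕ → ℕ, (∀ n, z (2 * n) = σ (hist z (2 * n))) → z ∈ X) ∨
    ∃ τ : List ℕ → ℕ, ∀ z : ℕ → ℕ, (∀ n, z (2 * n + 1) = τ (hist z (2 * n + 1))) → z ∉ X

/-- The subsets of Baire space that are projective in `B`. -/
inductive ProjIn (B : Set (ℕ → ℕ)) : Set (ℕ → ℕ) → Prop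
  | base : ProjIn B B
  | opn {U : Set (ℕ → ℕ)} : IsOpen U → ProjIn B U
  | compl {X : Set (ℕ → ℕ)} : ProjIn B X → ProjIn B Xᶜ
  | union {X Y : Set (ℕ → ℕ)} : ProjIn B X → ProjIn B Y → ProjIn B (X ∪ Y)
  | preimage {X : Set (ℕ → ℕ)} {f : (ℕ → ℕ) → ℕ → ℕ} :
      Continuous f → ProjIn B X → ProjIn B (f ⁻¹' X)
  | image {X : Set (ℕ → ℕ)} {f : (ℕ → ℕ) → ℕ → ℕ} :
      Continuous f → ProjIn B X → ProjIn B (f '' X)

/-- The relation `k ∈ φ x` as a subset of Baire space: `k = z 0`, `x = {n | z (n + 1) = 0}`. -/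
def selCode (φ : Set ℕ → Set ℕ) : Set (ℕ → ℕ) := {z | z 0 ∈ φ {n | z (n + 1) = 0}}

end Pool.Agent.Lib.MP_3c53be_lc
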