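import Pool.Agent.Lib.MP_3c53be_lc.Defs

/-! A calculus for functions whose graph is projective in a fixed set. -/

set_option linter.unusedSectionVars false

namespace Pool.Agent.Lib.MP_3c53be_lc

open Classical

abbrev Bs := ℕ → ℕ

def col (k : ℕ) (z : Bs) : Bs := fun n => z (Nat.pair k n)

def mkc (g : ℕ → Bs) : Bs := fun m => g m.unpair.1 m.unpair.2

@[simp] theorem col_mkc (k : ℕ) (g : ℕ → Bs) : col k (mkc g) = g k := by
  funext n; simp [col, mkc]

def jn (x y : Bs) : Bs := mkc fun k => if k = 0 then x else y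

@[simp] theorem col_zero_jn (x y : Bs) : col 0 (jn x y) = x := by simp [jn]

@[simp] theorem col_one_jn (x y : Bs) : col 1 (jn x y) = y := by simp [jn]

@[fun_prop] theorem continuous_col (k : ℕ) : Continuous (col k) := by
  unfold col; fun_prop

theorem continuous_jn {X : Type} [TopologicalSpace X] {f g : X → Bs} (hf : Continuous f)
    (hg : Continuous g) : Continuous fun x => jn (f x) (g x) := by
  unfold jn mkc
  refine continuous_pi fun m => ?_
  dsimp only
  split_ifs <;> fun_prop

theorem continuous_evalB : Continuous fun p : Bs × ℕ => p.1 p.2 :=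
  continuous_prod_of_discrete_right.2 fun n => continuous_apply n

theorem ProjIn.of_eq {B X Y : Set Bs} (h : ProjIn B X) (e : ∀ z, z ∈ X ↔ z ∈ Y) : ProjIn B Y :=
  (Set.ext e : X = Y) ▸ h

theorem ProjIn.inter {B X Y : Set Bs} (h : ProjIn B X) (h' : ProjIn B Y) : ProjIn B (X ∩ Y) :=
  (h.compl.union h'.compl).compl.of_eq (by intro z; simp)

theorem ProjIn.proj {B X : Set Bs} (h : ProjIn B X) : ProjIn B {z | ∃ y, jn z y ∈ X} := by
  have h1 : ProjIn B ((fun w => jn (col 0 w) (col 1 w)) ⁻¹' X) :=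
    h.preimage (continuous_jn (continuous_col 0) (continuous_col 1))
  refine (h1.image (continuous_col 0)).of_eq fun z => ⟨?_, ?_⟩
  · rintro ⟨w, hw, rfl⟩; exact ⟨_, hw⟩
  · rintro ⟨y, hy⟩; exact ⟨jn z y, by simpa using hy, by simp⟩

/-- Types coded by elements of Baire space. -/
class Cd (α : Type) where
  dec : Bs → α
  surj : Function.Surjective dec
  eqv : ∀ B : Set Bs, ProjIn B {z | dec (col 0 z) = dec (col 1 z)}

instance : Cd ℕ where
  dec z := z 0
  surj n := ⟨fun _ => n, rfl⟩
  eqv _ := ProjIn.opn ((isOpen_discrete {p : ℕ × ℕ | p.1 = p.2}).preimage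
    (f := fun z : Bs => (col 0 z 0, col 1 z 0)) (by unfold col; fun_prop))

instance : Cd Prop where
  dec z := z 0 = 0
  surj p := ⟨fun _ => if p then 0 else 1, by by_cases h : p <;> simp [h]⟩
  eqv _ := ProjIn.opn ((isOpen_discrete {p : ℕ × ℕ | (p.1 = 0) = (p.2 = 0)}).preimage
    (f := fun z : Bs => (col 0 z 0, col 1 z 0)) (by unfold col; fun_prop))

instance {α β : Type} [Cd α] [Cd β] : Cd (α × β) where
  dec z := (Cd.dec (col 0 z), Cd.dec (col 1 z))
  surj p := by
    obtain ⟨x, hx⟩ := Cd.surj p.1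
    obtain ⟨y, hy⟩ := Cd.surj p.2
    exact ⟨jn x y, by simp [hx, hy]⟩
  eqv B := by
    have h1 := (Cd.eqv (α := α) B).preimage
      (f := fun z => jn (col 0 (col 0 z)) (col 0 (col 1 z))) (continuous_jn (by fun_prop) (by fun_prop))
    have h2 := (Cd.eqv (α := β) B).preimage
      (f := fun z => jn (col 1 (col 0 z)) (col 1 (col 1 z))) (continuous_jn (by fun_prop) (by fun_prop))
    exact (h1.inter h2).of_eq (by intro z; simp)

theorem continuous_col_dep {f : Bs → ℕ} {g : Bs → Bs} (hf : Continuous f) (hg : Continuous g) :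
    Continuous fun z => col (f z) (g z) := by
  unfold col
  refine continuous_pi fun n => continuous_evalB.comp (hg.prodMk ?_)
  exact (continuous_of_discreteTopology (f := fun k => Nat.pair k n)).comp hf

instance {β : Type} [Cd β] : Cd (ℕ → β) where
  dec z := fun n => Cd.dec (col n z)
  surj g := by
    choose x hx using fun n => Cd.surj (g n)
    exact ⟨mkc x, by funext n; simp [hx]⟩
  eqv B := by
    have c0 : Continuous fun z : Bs => col 1 z 0 := by unfold col; fun_prop
    have h1 := (Cd.eqv (α := β) B).preimage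
      (f := fun z => jn (col (col 1 z 0) (col 0 (col 0 z))) (col (col 1 z 0) (col 1 (col 0 z))))
      (continuous_jn (continuous_col_dep c0 (by fun_prop)) (continuous_col_dep c0 (by fun_prop)))
    refine h1.compl.proj.compl.of_eq fun z => ?_
    simp only [Set.mem_compl_iff, Set.mem_ofPred_eq, Set.mem_preimage, col_zero_jn, col_one_jn,
      not_exists, not_not]
    exact ⟨fun h => funext fun n => h fun _ => n, fun h y => congrFun h _⟩

instance : Cd (Set ℕ) := inferInstanceAs (Cd (ℕ → Prop))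

variable {B : Set Bs} {α β γ : Type} [Cd α] [Cd β] [Cd γ]

/-- The predicate is projective in `B` in the codes. -/
def G (B : Set Bs) (P : α → Prop) : Prop := ProjIn B {z | P (Cd.dec z)}

/-- The function is realised by a continuous map on codes. -/
@[fun_prop] def Rz (f : α → β) : Prop :=
  ∃ F : Bs → Bs, Continuous F ∧ ∀ z, Cd.dec (F z) = f (Cd.dec z)

@[fun_prop] protected theorem Rz.id : Rz (fun a : α => a) := ⟨id, continuous_id, fun _ => rfl⟩

@[fun_prop] protected theorem Rz.const (c : β) : Rz (fun _ : α => c) := by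
  obtain ⟨x, hx⟩ := Cd.surj c
  exact ⟨fun _ => x, continuous_const, fun _ => hx⟩

@[fun_prop] protected theorem Rz.comp {f : β → γ} {g : α → β} (hf : Rz f) (hg : Rz g) :
    Rz (fun a => f (g a)) := by
  obtain ⟨F, hF, e⟩ := hf
  obtain ⟨F', hF', e'⟩ := hg
  exact ⟨F ∘ F', hF.comp hF', fun z => by simp [e, e']⟩

@[fun_prop] protected theorem Rz.prodMk {f : α → β} {g : α → γ} (hf : Rz f) (hg : Rz g) :
    Rz (fun a => (f a, g a)) := by
  obtain ⟨F, hF, e⟩ := hf
  obtain ⟨F', hF', e'⟩ := hg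
  exact ⟨fun z => jn (F z) (F' z), continuous_jn hF hF', fun z => by simp [Cd.dec, e, e']⟩

@[fun_prop] protected theorem Rz.fst {f : α → β × γ} (hf : Rz f) : Rz (fun a => (f a).1) :=
  Rz.comp (f := Prod.fst) ⟨col 0, continuous_col 0, fun _ => rfl⟩ hf

@[fun_prop] protected theorem Rz.snd {f : α → β × γ} (hf : Rz f) : Rz (fun a => (f a).2) :=
  Rz.comp (f := Prod.snd) ⟨col 1, continuous_col 1, fun _ => rfl⟩ hf

theorem rz_app : Rz (fun p : (ℕ → β) × ℕ => p.1 p.2) :=
  ⟨fun z => col (col 1 z 0) (col 0 z),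
    continuous_col_dep (by unfold col; fun_prop) (continuous_col 0), fun _ => rfl⟩

theorem rz_nat2 (f : ℕ → ℕ → β) : Rz (fun p : ℕ × ℕ => f p.1 p.2) := by
  choose x hx using fun p : ℕ × ℕ => Cd.surj (f p.1 p.2)
  exact ⟨fun z => x (col 0 z 0, col 1 z 0),
    continuous_of_discreteTopology.comp (by unfold col; fun_prop), fun z => hx _⟩

theorem G.of_iff {P Q : α → Prop} (h : G B P) (e : ∀ a, P a ↔ Q a) : G B Q :=
  h.of_eq fun _ => e _

theorem G.comp {P : β → Prop} {f : α → β} (h : G B P) (hf : Rz f) : G B (fun a => P (f a)) := by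
  obtain ⟨F, hF, e⟩ := hf
  exact (h.preimage hF).of_eq (by intro z; simp [e])

theorem G.not {P : α → Prop} (h : G B P) : G B (fun a => ¬ P a) := h.compl

theorem G.and {P Q : α → Prop} (h : G B P) (h' : G B Q) : G B (fun a => P a ∧ Q a) := h.inter h'

theorem G.or {P Q : α → Prop} (h : G B P) (h' : G B Q) : G B (fun a => P a ∨ Q a) := h.union h'

theorem G.exists {Q : α → β → Prop} (h : G B (fun p : α × β => Q p.1 p.2)) :
    G B (fun a => ∃ b, Q a b) := by
  refine h.proj.of_eq fun z => ⟨?_, ?_⟩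
  · rintro ⟨y, hy⟩; exact ⟨Cd.dec y, by simpa [Cd.dec] using hy⟩
  · rintro ⟨b, hb⟩
    obtain ⟨y, rfl⟩ := Cd.surj b
    exact ⟨y, by simpa [Cd.dec] using hb⟩

theorem g_eq {f g : α → β} (hf : Rz f) (hg : Rz g) : G B (fun a => f a = g a) :=
  G.comp (P := fun p : β × β => p.1 = p.2) (Cd.eqv B) (hf.prodMk hg)

/-- The graph of the function is projective in `B` in the codes. -/
@[fun_prop] def Df (B : Set Bs) (f : α → β) : Prop := G B (fun p : α × β => f p.1 = p.2)

theorem Rz.df {f : α → β} (hf : Rz f) : Df B f := g_eq (by fun_prop) (by fun_prop)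

theorem Df.congr {f g : α → β} (h : Df B f) (e : ∀ a, f a = g a) : Df B g :=
  (funext e : f = g) ▸ h

theorem Df.of_iff {P Q : α → Prop} (h : Df B P) (e : ∀ a, P a ↔ Q a) : Df B Q :=
  h.congr fun a => propext (e a)

theorem df_iff {P : α → Prop} : Df B P ↔ G B P := by
  constructor
  · intro h
    exact (G.comp h (f := fun a => (a, True)) (by fun_prop)).of_iff (by simp)
  · intro h
    have h1 : G B (fun p : α × Prop => P p.1) := h.comp (by fun_prop)
    have h2 : G B (fun p : α × Prop => p.2) :=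
      (g_eq (f := fun p : α × Prop => p.2) (g := fun _ => True) (by fun_prop)
        (by fun_prop)).of_iff (by simp)
    exact ((h1.and h2).or (h1.not.and h2.not)).of_iff (by intro p; simp only [eq_iff_iff]; tauto)

@[fun_prop] protected theorem Df.id : Df B (fun a : α => a) := Rz.id.df

@[fun_prop] protected theorem Df.const (c : β) : Df B (fun _ : α => c) := (Rz.const c).df

@[fun_prop] protected theorem Df.comp {f : β → γ} {g : α → β} (hf : Df B f) (hg : Df B g) :
    Df B (fun a => f (g a)) := by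
  have h1 := G.comp hg (f := fun p : (α × γ) × β => (p.1.1, p.2)) (by fun_prop)
  have h2 := G.comp hf (f := fun p : (α × γ) × β => (p.2, p.1.2)) (by fun_prop)
  exact (G.exists (Q := fun (p : α × γ) (b : β) => g p.1 = b ∧ f b = p.2) (h1.and h2)).of_iff
    (by simp)

@[fun_prop] protected theorem Df.prodMk {f : α → β} {g : α → γ} (hf : Df B f) (hg : Df B g) :
    Df B (fun a => (f a, g a)) := by
  have h1 := G.comp hf (f := fun p : α × β × γ => (p.1, p.2.1)) (by fun_prop)
  have h2 := G.comp hg (f := fun p : α × β × γ => (p.1, p.2.2)) (by fun_prop)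
  exact (h1.and h2).of_iff (by intro p; simp [Prod.ext_iff])

@[fun_prop] protected theorem Df.fst {f : α → β × γ} (hf : Df B f) : Df B (fun a => (f a).1) :=
  Df.comp (f := Prod.fst) (Rz.df (by fun_prop)) hf

@[fun_prop] protected theorem Df.snd {f : α → β × γ} (hf : Df B f) : Df B (fun a => (f a).2) :=
  Df.comp (f := Prod.snd) (Rz.df (by fun_prop)) hf

protected theorem Df.app {f : α → ℕ → β} {g : α → ℕ} (hf : Df B f) (hg : Df B g) :
    Df B (fun a => f a (g a)) :=
  Df.comp (f := fun p : (ℕ → β) × ℕ => p.1 p.2) rz_app.df (hf.prodMk hg)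

theorem Df.nat2 (f : ℕ → ℕ → β) {g h : α → ℕ} (hg : Df B g) (hh : Df B h) :
    Df B (fun a => f (g a) (h a)) :=
  Df.comp (f := fun p : ℕ × ℕ => f p.1 p.2) (rz_nat2 f).df (hg.prodMk hh)

theorem df_nat (f : ℕ → β) : Df B f :=
  Df.nat2 (fun n _ => f n) Df.id Df.id

@[fun_prop] protected theorem Df.not {P : α → Prop} (h : Df B P) : Df B (fun a => ¬ P a) :=
  df_iff.2 (df_iff.1 h).not

@[fun_prop] protected theorem Df.and {P Q : α → Prop} (h : Df B P) (h' : Df B Q) :
    Df B (fun a => P a ∧ Q a) := df_iff.2 ((df_iff.1 h).and (df_iff.1 h'))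

@[fun_prop] protected theorem Df.or {P Q : α → Prop} (h : Df B P) (h' : Df B Q) :
    Df B (fun a => P a ∨ Q a) := df_iff.2 ((df_iff.1 h).or (df_iff.1 h'))

@[fun_prop] protected theorem Df.imp {P Q : α → Prop} (h : Df B P) (h' : Df B Q) :
    Df B (fun a => P a → Q a) := (h.not.or h').of_iff (by intro a; tauto)

@[fun_prop] protected theorem Df.iff {P Q : α → Prop} (h : Df B P) (h' : Df B Q) :
    Df B (fun a => P a ↔ Q a) := ((h.imp h').and (h'.imp h)).of_iff (by intro a; tauto)

@[fun_prop] protected theorem Df.exists {Q : α → β → Prop}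
    (h : Df B (fun p : α × β => Q p.1 p.2)) : Df B (fun a => ∃ b, Q a b) :=
  df_iff.2 (df_iff.1 h).exists

@[fun_prop] protected theorem Df.forall {Q : α → β → Prop}
    (h : Df B (fun p : α × β => Q p.1 p.2)) : Df B (fun a => ∀ b, Q a b) :=
  (Df.exists (Q := fun a b => ¬ Q a b) h.not).not.of_iff (by simp)

@[fun_prop] protected theorem Df.eq {f g : α → β} (hf : Df B f) (hg : Df B g) :
    Df B (fun a => f a = g a) :=
  Df.comp (f := fun p : β × β => p.1 = p.2) (df_iff.2 (Cd.eqv B)) (hf.prodMk hg)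

@[fun_prop] protected theorem Df.ne {f g : α → β} (hf : Df B f) (hg : Df B g) :
    Df B (fun a => f a ≠ g a) := (hf.eq hg).not

theorem Df.of_graph {f : α → β} (h : Df B (fun p : α × β => f p.1 = p.2)) : Df B f := df_iff.1 h

theorem Df.lam {f : α → ℕ → β} (h : Df B (fun p : α × ℕ => f p.1 p.2)) : Df B f := by
  refine Df.of_graph (Df.of_iff (P := fun p : α × (ℕ → β) => ∀ n, f p.1 n = p.2 n) ?_
    fun p => funext_iff.symm)
  exact Df.forall (Df.eq (by fun_prop) (Df.app (by fun_prop) (by fun_prop)))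

@[fun_prop] protected theorem Df.setOf {Q : α → ℕ → Prop}
    (h : Df B (fun p : α × ℕ => Q p.1 p.2)) : Df B (fun a => {i | Q a i}) := Df.lam h

@[fun_prop] protected theorem Df.mem {f : α → ℕ} {g : α → Set ℕ} (hf : Df B f) (hg : Df B g) :
    Df B (fun a => f a ∈ g a) := Df.app (β := Prop) hg hf

@[fun_prop] protected theorem Df.lt {f g : α → ℕ} (hf : Df B f) (hg : Df B g) :
    Df B (fun a => f a < g a) := Df.nat2 (fun m n => m < n) hf hg

@[fun_prop] protected theorem Df.le {f g : α → ℕ} (hf : Df B f) (hg : Df B g) :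
    Df B (fun a => f a ≤ g a) := Df.nat2 (fun m n => m ≤ n) hf hg

@[fun_prop] protected theorem Df.add {f g : α → ℕ} (hf : Df B f) (hg : Df B g) :
    Df B (fun a => f a + g a) := Df.nat2 (fun m n => m + n) hf hg

@[fun_prop] protected theorem Df.mul {f g : α → ℕ} (hf : Df B f) (hg : Df B g) :
    Df B (fun a => f a * g a) := Df.nat2 (fun m n => m * n) hf hg

@[fun_prop] protected theorem Df.ite {P : α → Prop} {f g : α → β} [∀ a, Decidable (P a)]
    (hP : Df B P) (hf : Df B f) (hg : Df B g) : Df B (fun a => if P a then f a else g a) := by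
  refine Df.of_graph (Df.of_iff (P := fun p : α × β => (P p.1 ∧ f p.1 = p.2) ∨
    (¬ P p.1 ∧ g p.1 = p.2)) (by fun_prop) ?_)
  intro p
  by_cases h : P p.1 <;> simp [h]

@[fun_prop] protected theorem Df.sInf {f : α → Set ℕ} (hf : Df B f) :
    Df B (fun a => sInf (f a)) := by
  refine Df.of_graph (Df.of_iff (P := fun p : α × ℕ => (p.2 ∈ f p.1 ∧ ∀ m, m < p.2 → ¬ m ∈ f p.1) ∨
    (p.2 = 0 ∧ ∀ m, ¬ m ∈ f p.1)) (by fun_prop) ?_)
  rintro ⟨a, n⟩
  dsimp only
  rcases (f a).eq_empty_or_nonempty with h | h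
  · simp [h, eq_comm]
  · constructor
    · rintro (⟨h1, h2⟩ | ⟨-, h2⟩)
      · exact le_antisymm (Nat.sInf_le h1) (not_lt.1 fun h3 => h2 _ h3 (Nat.sInf_mem h))
      · exact absurd h.some_mem (h2 _)
    · rintro rfl
      exact Or.inl ⟨Nat.sInf_mem h, fun m hm => Nat.notMem_of_lt_sInf hm⟩

/-- Primitive recursion. -/
theorem Df.natRec {i : α → β} {h : α → ℕ → β → β} (hi : Df B i)
    (hh : Df B (fun p : α × ℕ × β => h p.1 p.2.1 p.2.2)) :
    Df B (fun a => fun n : ℕ => (Nat.rec (i a) (h a) n : β)) := by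
  refine Df.of_graph (Df.of_iff (P := fun p : α × (ℕ → β) => i p.1 = p.2 0 ∧
    ∀ n, h p.1 n (p.2 n) = p.2 (n + 1)) ?_ ?_)
  · refine Df.and (Df.eq (by fun_prop) (Df.app (by fun_prop) (by fun_prop))) (Df.forall (Df.eq ?_
      (Df.app (by fun_prop) (by fun_prop))))
    exact hh.comp (g := fun q : (α × (ℕ → β)) × ℕ => (q.1.1, q.2, q.1.2 q.2))
      (Df.prodMk (by fun_prop) (Df.prodMk (by fun_prop) (Df.app (by fun_prop) (by fun_prop))))
  · rintro ⟨a, g⟩
    dsimp only
    constructor
    · rintro ⟨h1, h2⟩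
      funext n
      induction n with
      | zero => exact h1
      | succ n ih => exact (congrArg (h a n) ih).trans (h2 n)
    · rintro rfl
      exact ⟨rfl, fun _ => rfl⟩

theorem Df.projIn {X : Set Bs} (h : Df B (fun z : Bs => z ∈ X)) : ProjIn B X := by
  have h1 : ProjIn B ((fun z : Bs => mkc fun k _ => z k) ⁻¹' _) :=
    (df_iff.1 h).preimage (by unfold mkc; fun_prop)
  exact h1.of_eq (by intro z; simp [Cd.dec])

theorem df_sel (φ : Set ℕ → Set ℕ) : Df (selCode φ) φ := by
  have h : Df (selCode φ) (fun p : Set ℕ × ℕ => p.2 ∈ φ p.1) := by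
    refine df_iff.2 ((ProjIn.base.preimage
      (f := fun z : Bs => fun n => Nat.casesOn n (col 1 z 0) fun m => col m (col 0 z) 0)
      ?_).of_eq fun z => Iff.rfl)
    refine continuous_pi fun n => ?_
    cases n <;> (unfold col; fun_prop)
  exact Df.setOf h

/-- Application of a sequence, as a named function. -/
def ap (g : ℕ → β) (n : ℕ) : β := g n

@[fun_prop] protected theorem Df.ap {f : α → ℕ → β} {g : α → ℕ} (hf : Df B f) (hg : Df B g) :
    Df B (fun a => ap (f a) (g a)) := hf.app hg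

end Pool.Agent.Lib.MP_3c53be_lc
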