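import Pool.Agent.Lib.MP_3c53be_lc.Ops

/-! The ideal generated by a mad family, and diagonal intersections. -/

namespace Pool.Agent.Lib.MP_3c53be_lc

open Classical

/-- An infinite mad family with a selector. -/
structure Sel (A : Set (Set ℕ)) (φ : Set ℕ → Set ℕ) : Prop where
  mad : IsMad A
  inf : A.Infinite
  sel : ∀ x : Set ℕ, x.Infinite → φ x ∈ A ∧ (φ x ∩ x).Infinite

variable {A : Set (Set ℕ)} {φ : Set ℕ → Set ℕ}

theorem infinite_iff {a : Set ℕ} : a.Infinite ↔ ∀ k, ∃ m, k ≤ m ∧ m ∈ a :=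
  ⟨fun h k => (h.exists_gt k).elim fun m hm => ⟨m, hm.2.le, hm.1⟩, fun h =>
    Set.infinite_of_forall_exists_gt fun k => (h (k + 1)).elim fun m hm => ⟨m, hm.2, hm.1⟩⟩

theorem Sel.mem_iff (h : Sel A φ) {a : Set ℕ} : a ∈ A ↔ a.Infinite ∧ φ a = a := by
  refine ⟨fun ha => ⟨h.mad.1 a ha, ?_⟩, fun ha => ha.2 ▸ (h.sel a ha.1).1⟩
  by_contra hn
  exact (h.sel a (h.mad.1 a ha)).2 (h.mad.2.1 _ (h.sel a (h.mad.1 a ha)).1 a ha hn)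

theorem Sel.sm_iff (h : Sel A φ) {Y : Set ℕ} :
    Sm φ Y ↔ ∃ F : Set (Set ℕ), F.Finite ∧ F ⊆ A ∧ (Y \ ⋃₀ F).Finite := by
  constructor
  · rintro ⟨g, n, h1, h2⟩
    refine ⟨g '' Set.Iio n, (Set.finite_Iio n).image g, ?_, (Set.finite_Iio n).subset ?_⟩
    · rintro _ ⟨i, -, rfl⟩
      exact h.mem_iff.2 ⟨infinite_iff.2 (h1 i).1, (h1 i).2⟩
    · intro m hm
      by_contra hn
      obtain ⟨i, hi, h3⟩ := h2 m hm.1 (not_lt.1 hn)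
      exact hm.2 ⟨_, ⟨i, hi, rfl⟩, h3⟩
  · rintro ⟨F, h1, h2, h3⟩
    obtain ⟨a, ha⟩ := h.inf.nonempty
    obtain ⟨g, hg⟩ := (h1.insert a).countable.exists_eq_range (Set.insert_nonempty a F)
    have h4 : ∀ b : F, ∃ i, g i = b := fun b =>
      show (b : Set ℕ) ∈ Set.range g from hg ▸ Set.mem_insert_of_mem a b.2
    choose f hf using h4
    have := h1.to_subtype
    obtain ⟨n, hn⟩ := ((Set.finite_range f).union h3).bddAbove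
    refine ⟨g, n + 1, fun i => ?_, fun m hm h5 => ?_⟩
    · have h5 : g i ∈ A := by
        rcases (show g i ∈ insert a F from hg ▸ ⟨i, rfl⟩) with e | e
        · exact e ▸ ha
        · exact h2 e
      exact ⟨infinite_iff.1 (h.mem_iff.1 h5).1, (h.mem_iff.1 h5).2⟩
    · by_cases h6 : m ∈ ⋃₀ F
      · obtain ⟨b, hb, h7⟩ := h6
        exact ⟨f ⟨b, hb⟩, Nat.lt_succ_of_le (hn (Or.inl ⟨_, rfl⟩)), by
          rw [ap, hf]; exact h7⟩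
      · exact absurd (hn (Or.inr ⟨hm, h6⟩)) (by omega)

theorem Sel.sm_mono (h : Sel A φ) {Y Z : Set ℕ} (hZ : Sm φ Z) (m : ℕ)
    (hY : ∀ i, m ≤ i → i ∈ Y → i ∈ Z) : Sm φ Y := by
  obtain ⟨F, h1, h2, h3⟩ := h.sm_iff.1 hZ
  refine h.sm_iff.2 ⟨F, h1, h2, ((Set.finite_Iio m).union h3).subset fun i hi => ?_⟩
  exact (lt_or_ge i m).imp id fun h4 => ⟨hY i h4 hi.1, hi.2⟩

theorem Sel.sm_union (h : Sel A φ) {Y Z : Set ℕ} (hY : Sm φ Y) (hZ : Sm φ Z) : Sm φ (Y ∪ Z) := by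
  obtain ⟨F, h1, h2, h3⟩ := h.sm_iff.1 hY
  obtain ⟨F', h1', h2', h3'⟩ := h.sm_iff.1 hZ
  refine h.sm_iff.2 ⟨F ∪ F', h1.union h1', Set.union_subset h2 h2', (h3.union h3').subset ?_⟩
  rintro i ⟨hi, hn⟩
  rw [Set.sUnion_union] at hn
  exact hi.imp (fun a => ⟨a, fun b => hn (Or.inl b)⟩) fun a => ⟨a, fun b => hn (Or.inr b)⟩

theorem Sel.sm_empty (h : Sel A φ) : Sm φ ∅ :=
  h.sm_iff.2 ⟨∅, Set.finite_empty, Set.empty_subset _, by simp⟩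

theorem Sel.sm_mem (h : Sel A φ) {a : Set ℕ} (ha : a ∈ A) : Sm φ a :=
  h.sm_iff.2 ⟨{a}, Set.finite_singleton a, Set.singleton_subset_iff.2 ha, by simp⟩

theorem Sel.exists_not (h : Sel A φ) {Y Z : Set ℕ} (hY : ¬ Sm φ Y) (hZ : Sm φ Z) (m : ℕ) :
    ∃ i, m ≤ i ∧ i ∈ Y ∧ i ∉ Z := by
  by_contra hn
  push Not at hn
  exact hY (h.sm_mono hZ m hn)

theorem Sel.finite_of_sm (h : Sel A φ) {Y : Set ℕ} (hY : Sm φ Y) :
    {a | a ∈ A ∧ (a ∩ Y).Infinite}.Finite := by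
  obtain ⟨F, h1, h2, h3⟩ := h.sm_iff.1 hY
  refine h1.subset fun a ha => ?_
  by_contra hn
  refine ha.2 ((h3.union (h1.biUnion (t := fun b => a ∩ b) fun b hb =>
    h.mad.2.1 a ha.1 b (h2 hb) fun e => hn (e ▸ hb))).subset fun i hi => ?_)
  by_cases h4 : i ∈ ⋃₀ F
  · obtain ⟨b, hb, h5⟩ := h4
    exact Or.inr (Set.mem_biUnion hb ⟨hi.1, h5⟩)
  · exact Or.inl ⟨hi.2, h4⟩

theorem Sel.not_sm_univ (h : Sel A φ) : ¬ Sm φ Set.univ := fun hn =>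
  h.inf ((h.finite_of_sm hn).subset fun a ha => ⟨ha, by simpa using h.mad.1 a ha⟩)

theorem Sel.psi_spec (h : Sel A φ) {Xs : ℕ → Set ℕ} (h1 : Antitone Xs) (h2 : ∀ i, ¬ Sm φ (Xs i))
    {R : Set ℕ} (hR : Sm φ R) :
    (psi Xs R).Infinite ∧ (∀ m ∈ psi Xs R, m ∉ R) ∧ ∀ j, (psi Xs R \ Xs j).Finite := by
  have h3 := fun i => Nat.sInf_mem (s := {m' | i ≤ m' ∧ m' ∈ ap Xs i ∧ ¬ m' ∈ R})
    (h.exists_not (h2 i) hR i)
  refine ⟨infinite_iff.2 fun k => ⟨_, (h3 k).1, k, rfl⟩, ?_, fun j => ?_⟩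
  · rintro _ ⟨i, rfl⟩
    exact (h3 i).2.2
  · refine ((Set.finite_Iio j).image
      fun i => sInf {m' | i ≤ m' ∧ m' ∈ ap Xs i ∧ ¬ m' ∈ R}).subset ?_
    rintro _ ⟨⟨i, rfl⟩, hn⟩
    exact ⟨i, not_le.1 fun h4 => hn (h1 h4 (h3 i).2.1), rfl⟩

theorem Sel.diag_spec (h : Sel A φ) {Xs : ℕ → Set ℕ} (h1 : Antitone Xs)
    (h2 : ∀ i, ¬ Sm φ (Xs i)) :
    ¬ Sm φ (diag φ Xs) ∧ ∀ m ∈ diag φ Xs, ∀ m' ∈ diag φ Xs, m < m' → m' ∈ Xs (JJ (m + 1)) := by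
  have hR : ∀ l, Sm φ (RR φ Xs l) := fun l => by
    induction l with
    | zero => exact h.sm_empty
    | succ l ih => exact h.sm_union ih (h.sm_mem (h.sel _ (h.psi_spec h1 h2 ih).1).1)
  have hp := fun l => h.psi_spec h1 h2 (hR l)
  have hs := fun l => h.sel _ (hp l).1
  have hmono : Monotone (RR φ Xs) := monotone_nat_of_le_succ fun l m hm => Or.inl hm
  have hinj : Function.Injective fun l => φ (psi Xs (RR φ Xs l)) := by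
    refine Function.Injective.of_lt_imp_ne fun l l' hl e => ?_
    obtain ⟨m, h3, h4⟩ := (hs l').2.nonempty
    exact (hp l').2.1 m h4 (hmono hl (Or.inr (by
      change φ (psi Xs (RR φ Xs l)) = φ (psi Xs (RR φ Xs l')) at e
      change m ∈ φ (psi Xs (RR φ Xs l))
      rw [e]
      exact h3)))
  have hi : ∀ t, ii φ Xs t < ii φ Xs (t + 1) ∧ ii φ Xs (t + 1) ∈ φ (psi Xs (RR φ Xs t.unpair.1)) ∧
      ii φ Xs (t + 1) ∈ psi Xs (RR φ Xs t.unpair.1) ∧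
      ii φ Xs (t + 1) ∈ Xs (JJ (ii φ Xs t + 1)) := fun t => by
    obtain ⟨m, h3, h4⟩ :=
      ((hs t.unpair.1).2.sdiff ((hp t.unpair.1).2.2 (JJ (ii φ Xs t + 1)))).exists_gt (ii φ Xs t)
    refine Nat.sInf_mem (s := {m | ii φ Xs t < m ∧ m ∈ φ (psi Xs (RR φ Xs t.unpair.1)) ∧
      m ∈ psi Xs (RR φ Xs t.unpair.1) ∧ m ∈ Xs (JJ (ii φ Xs t + 1))}) ⟨m, h4, h3.1.1, h3.1.2, ?_⟩
    by_contra hn
    exact h3.2 ⟨h3.1.2, hn⟩
  have hsm : StrictMono (ii φ Xs) := strictMono_nat_of_lt_succ fun t => (hi t).1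
  constructor
  · intro hn
    refine Set.infinite_of_injective_forall_mem hinj (fun l => ?_) (h.finite_of_sm hn)
    refine ⟨(hs l).1, infinite_iff.2 fun k => ⟨ii φ Xs (Nat.pair l k + 1), ?_, ?_, _, rfl⟩⟩
    · exact ((Nat.right_le_pair l k).trans (Nat.le_succ _)).trans (hsm.id_le _)
    · simpa using (hi (Nat.pair l k)).2.1
  · rintro _ ⟨t, rfl⟩ _ ⟨t', rfl⟩ h3
    have h4 : t + 1 ≤ t' := Nat.lt_succ_iff.1 (hsm.lt_iff_lt.1 h3)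
    exact h1 (JJ_mono (Nat.succ_le_succ (hsm.monotone h4))) (hi t').2.2.2

variable {r : Rl}

theorem fstep_spec (hr : WO r) {j : ℕ} {X : Set ℕ} (h : ∃ Y0 m, Pp φ r j X Y0 m) :
    ∃ Y0 m, Pp φ r j X Y0 m ∧ fstep φ r j X = cut m Y0 :=
  ⟨_, _, Nat.sInf_mem (hr.least_spec (P := fun Y0 => ∃ m, Pp φ r j X Y0 m)
    (fun _ a => a.elim fun _ b => b.1) h), if_pos h⟩

theorem Sel.xs_spec (h : Sel A φ) (hr : WO r) :
    Antitone (XS φ r) ∧ ∀ i, ¬ Sm φ (XS φ r i) := by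
  have key : ∀ j X, ¬ Sm φ X → fstep φ r j X ⊆ X ∧ ¬ Sm φ (fstep φ r j X) := fun j X hX => by
    by_cases h1 : ∃ Y0 m, Pp φ r j X Y0 m
    · obtain ⟨Y0, m, h2, h3⟩ := fstep_spec hr h1
      rw [h3]
      exact ⟨fun i hi => h2.2.2.1 i hi.1 hi.2, fun h4 =>
        h2.2.1 (h.sm_mono h4 m fun i a b => ⟨a, b⟩)⟩
    · rw [fstep, if_neg h1]
      exact ⟨le_rfl, hX⟩
  have h1 : ∀ i, ¬ Sm φ (XS φ r i) := fun i => by
    induction i with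
    | zero => exact h.not_sm_univ
    | succ i ih => exact (key i _ ih).2
  exact ⟨antitone_nat_of_succ_le fun i => (key i _ (h1 i)).1, h1⟩

end Pool.Agent.Lib.MP_3c53be_lc
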