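import Pool.Agent.Lib.MP_3c53be_lc.Cone

/-! Category forcing over a countable set of Mathias conditions. -/

set_option linter.unusedSectionVars false

namespace Pool.Agent.Lib.MP_3c53be_lc

open Classical

variable {B : Set Bs} {α : Type} [Cd α]

/-- A condition `(n, Y)` has stem `Y ∩ n` and reservoir `Y \ n`. -/
abbrev Cond := ℕ × Set ℕ

def Le (d c : Cond) : Prop :=
  c.1 ≤ d.1 ∧ (∀ i, i ∈ d.2 → i ∈ c.2) ∧ ∀ i, i < c.1 → i ∈ c.2 → i ∈ d.2

theorem Le.refl (c : Cond) : Le c c := ⟨le_rfl, fun _ h => h, fun _ _ h => h⟩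

theorem Le.trans {c d e : Cond} (h : Le e d) (h' : Le d c) : Le e c :=
  ⟨h'.1.trans h.1, fun i hi => h'.2.1 i (h.2.1 i hi),
    fun i hi h1 => h.2.2 i (hi.trans_le h'.1) (h'.2.2 i hi h1)⟩

@[fun_prop] theorem Df.cle {f g : α → Cond} (hf : Df B f) (hg : Df B g) :
    Df B (fun a => Le (f a) (g a)) := by
  unfold Le
  fun_prop

def Desc (Q : Cond → Prop) (g : ℕ → Cond) : Prop := ∀ n, Q (ap g n) ∧ Le (ap g (n + 1)) (ap g n)

def lim (g : ℕ → Cond) : Set ℕ := {i | ∀ n, i ∈ (ap g n).2}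

@[fun_prop] theorem Df.lim {f : α → ℕ → Cond} (hf : Df B f) : Df B (fun a => lim (f a)) := by
  unfold Pool.Agent.Lib.MP_3c53be_lc.lim
  fun_prop

/-- Comeager sets of descending sequences. -/
def Co (Q : Cond → Prop) (S : (ℕ → Cond) → Prop) : Prop :=
  ∃ D : ℕ → ℕ → Cond, (∀ n c, Q c → ∃ j, Q (ap (ap D n) j) ∧ Le (ap (ap D n) j) c) ∧
    ∀ g, Desc Q g → (∀ n, ∃ j m, Le (ap g m) (ap (ap D n) j)) → S g

/-- The condition `c` forces `P`. -/
def Fc (Q : Cond → Prop) (c : Cond) (P : Set ℕ → Prop) : Prop :=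
  Co Q fun g => (∃ m, Le (ap g m) c) → P (lim g)

theorem df_fc {Q : α → Cond → Prop} {c : α → Cond} {P : α → Set ℕ → Prop}
    (hQ : Df B (fun p : α × Cond => Q p.1 p.2)) (hc : Df B c)
    (hP : Df B (fun p : α × Set ℕ => P p.1 p.2)) : Df B (fun a => Fc (Q a) (c a) (P a)) := by
  unfold Fc Co Desc
  fun_prop

variable {Q : Cond → Prop}

theorem Desc.le {g : ℕ → Cond} (h : Desc Q g) {n m : ℕ} (hnm : n ≤ m) : Le (g m) (g n) := by
  induction hnm with
  | refl => exact Le.refl _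
  | step _ ih => exact (h _).2.trans ih

theorem lim_subset {g : ℕ → Cond} {m : ℕ} {c : Cond} (h : Le (g m) c) : lim g ⊆ c.2 :=
  fun i hi => h.2.1 i (hi m)

theorem Desc.mem_lim {g : ℕ → Cond} (hg : Desc Q g) {m : ℕ} {c : Cond} (h : Le (g m) c) {i : ℕ}
    (h1 : i < c.1) (h2 : i ∈ c.2) : i ∈ lim g := fun n =>
  (le_total n m).elim (fun h3 => (hg.le h3).2.1 i (h.2.2 i h1 h2))
    fun h3 => ((hg.le h3).trans h).2.2 i h1 h2

theorem Co.mono {S S' : (ℕ → Cond) → Prop} (h : Co Q S) (h' : ∀ g, Desc Q g → S g → S' g) :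
    Co Q S' := by
  obtain ⟨D, h1, h2⟩ := h
  exact ⟨D, h1, fun g h3 h4 => h' g h3 (h2 g h3 h4)⟩

theorem Co.all {ι : Type} [Countable ι] [Nonempty ι] {S : ι → (ℕ → Cond) → Prop}
    (h : ∀ i, Co Q (S i)) : Co Q fun g => ∀ i, S i g := by
  obtain ⟨e, he⟩ := exists_surjective_nat ι
  choose D h1 h2 using h
  refine ⟨fun n => D (e n.unpair.1) n.unpair.2, fun n => h1 _ _, fun g h3 h4 i => ?_⟩
  obtain ⟨k, rfl⟩ := he i
  exact h2 _ g h3 fun n => by simpa [ap] using h4 (Nat.pair k n)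

theorem Co.and {S S' : (ℕ → Cond) → Prop} (h : Co Q S) (h' : Co Q S') :
    Co Q fun g => S g ∧ S' g :=
  (Co.all (S := fun b : Bool => cond b S S') fun b => by cases b <;> assumption).mono
    fun _ _ h1 => ⟨h1 true, h1 false⟩

theorem Co.of_dense {e : ℕ → Cond} (he : ∀ c, Q c ↔ ∃ n, e n = c) {E : Cond → Prop}
    (h : ∀ c, Q c → ∃ d, Q d ∧ Le d c ∧ E d) : Co Q fun g => ∃ m d, E d ∧ Le (g m) d := by
  choose D h1 h2 h3 using fun j => h (e j) ((he _).2 ⟨j, rfl⟩)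
  refine ⟨fun _ => D, fun _ c hc => ?_, fun g _ h4 => ?_⟩
  · obtain ⟨j, rfl⟩ := (he c).1 hc
    exact ⟨j, h1 j, h2 j⟩
  · obtain ⟨j, m, h5⟩ := h4 0
    exact ⟨m, _, h3 j, h5⟩

theorem Co.of_forall {e : ℕ → Cond} (he : ∀ c, Q c ↔ ∃ n, e n = c) {S : (ℕ → Cond) → Prop}
    (h : ∀ g, Desc Q g → S g) : Co Q S :=
  (Co.of_dense he (E := fun _ => True) fun c hc => ⟨c, hc, Le.refl c, trivial⟩).mono
    fun g hg _ => h g hg

theorem exists_chain {X : Type} {P : X → Prop} {E : ℕ → X → X → Prop}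
    (h : ∀ n x, P x → ∃ y, P y ∧ E n x y) {x0 : X} (h0 : P x0) :
    ∃ s : ℕ → X, s 0 = x0 ∧ ∀ n, P (s n) ∧ E n (s n) (s (n + 1)) := by
  choose f h1 h2 using h
  let s : ℕ → {x // P x} := fun n => Nat.rec ⟨x0, h0⟩ (fun n x => ⟨f n x.1 x.2, h1 n x.1 x.2⟩) n
  exact ⟨fun n => (s n).1, rfl, fun n => ⟨(s n).2, h2 n _ (s n).2⟩⟩

theorem Co.exists {S : (ℕ → Cond) → Prop} (h : Co Q S) {c : Cond} (hc : Q c) :
    ∃ g, Desc Q g ∧ g 0 = c ∧ S g := by
  obtain ⟨D, h1, h2⟩ := h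
  obtain ⟨s, h3, h4⟩ := exists_chain (P := Q) (E := fun n x y => Le y x ∧ ∃ j, y = D n j)
    (fun n x hx => by
      obtain ⟨j, h3, h4⟩ := h1 n x hx
      exact ⟨_, h3, h4, j, rfl⟩) hc
  have h5 : Desc Q s := fun n => ⟨(h4 n).1, (h4 n).2.1⟩
  refine ⟨s, h5, h3, h2 s h5 fun n => ?_⟩
  obtain ⟨j, hj⟩ := (h4 n).2.2
  exact ⟨j, n + 1, (show Le (s (n + 1)) (D n j) from hj ▸ Le.refl _)⟩

theorem Fc.anti {c d : Cond} {P : Set ℕ → Prop} (h : Fc Q c P) (hd : Le d c) : Fc Q d P :=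
  h.mono fun _ _ h1 ⟨m, hm⟩ => h1 ⟨m, hm.trans hd⟩

noncomputable def step (e : ℕ → Cond) (d : Cond) (m : ℕ) : Cond := if Le (e m) d then e m else d

noncomputable def seq (e : ℕ → Cond) (c : Cond) (z : Bs) (n : ℕ) : Cond :=
  Nat.rec c (fun n d => step e d (ap z n)) n

theorem step_le (e : ℕ → Cond) (d : Cond) (m : ℕ) : Le (step e d m) d := by
  unfold step
  split_ifs with h
  · exact h
  · exact Le.refl d

theorem seq_eq (e : ℕ → Cond) (c : Cond) (z : Bs) (n : ℕ) :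
    seq e c z n = (hist z n).foldl (step e) c := by
  induction n with
  | zero => rfl
  | succ n ih => rw [hist_succ, List.foldl_append, ← ih]; rfl

theorem fc_of_strategy {e : ℕ → Cond} (he : ∀ c, Q c ↔ ∃ n, e n = c)
    (hQ : ∀ c n, Q c → Q (n, c.2)) {c : Cond} (hc : Q c) {P : Set ℕ → Prop} {b s : ℕ}
    (hb : b + s = 1) {σ : List ℕ → ℕ} {l0 : List ℕ}
    (hl : ∀ z : Bs, (∀ n, n % 2 = b → z n = σ (hist z n)) → hist z s = l0)
    (h : ∀ z : Bs, (∀ n, n % 2 = b → z n = σ (hist z n)) → P (lim (seq e c z))) :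
    Fc Q (l0.foldl (step e) c) P := by
  set v : List ℕ → Cond := fun l => l.foldl (step e) c with hv
  have hstep : ∀ d m, Q d → Q (step e d m) := fun d m hd => by
    unfold step
    split_ifs
    · exact (he _).2 ⟨m, rfl⟩
    · exact hd
  have vQ : ∀ l, Q (v l) := fun l => by
    induction l using List.reverseRecOn with
    | nil => exact hc
    | append_singleton l m ih => simpa [hv] using hstep _ m ih
  set nx : List ℕ → ℕ → List ℕ := fun l m => l ++ [m] ++ [σ (l ++ [m])] with hnx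
  refine (Co.all fun l : List ℕ => Co.of_dense he (E := fun d =>
    (¬ ∃ d', Q d' ∧ Le d' d ∧ Le d' (v l)) ∨ ∃ m, d = v (nx l m) ∧ (v l).1 < d.1) ?_).mono ?_
  · intro d hd
    by_cases h1 : ∃ d', Q d' ∧ Le d' d ∧ Le d' (v l)
    · obtain ⟨d', h2, h3, h4⟩ := h1
      obtain ⟨m, hm⟩ := (he _).1 (hQ d' (d'.1 + 1) h2)
      have h5 : Le (e m) d' := hm ▸ ⟨Nat.le_succ _, fun _ h => h, fun _ _ h => h⟩
      have h6 : v (l ++ [m]) = e m := by
        simp only [hv, List.foldl_append, List.foldl_cons, List.foldl_nil]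
        exact if_pos (h5.trans h4)
      have h7 : Le (v (nx l m)) (e m) := by
        rw [← h6]
        simp only [hv, hnx, List.foldl_append, List.foldl_cons, List.foldl_nil]
        exact step_le _ _ _
      refine ⟨_, vQ _, h7.trans (h5.trans h3), Or.inr ⟨m, rfl, lt_of_lt_of_le ?_ h7.1⟩⟩
      rw [hm]
      exact Nat.lt_succ_of_le h4.1
    · exact ⟨d, hd, Le.refl d, Or.inl h1⟩
  · intro g hg h1 h0
    have h2 : ∀ l, (∃ j, Le (g j) (v l)) →
        ∃ m, (∃ j, Le (g j) (v (nx l m))) ∧ (v l).1 < (v (nx l m)).1 := by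
      rintro l ⟨j, hj⟩
      obtain ⟨j', d, h3 | ⟨m, rfl, h3⟩, h4⟩ := h1 l
      · exact absurd ⟨g (max j j'), (hg _).1, (hg.le (le_max_right _ _)).trans h4,
          (hg.le (le_max_left _ _)).trans hj⟩ h3
      · exact ⟨m, ⟨j', h4⟩, h3⟩
    choose! mv h3 h4 using h2
    let L : ℕ → List ℕ := fun k => Nat.rec l0 (fun _ l => nx l (mv l)) k
    have h5 : ∀ k, (∃ j, Le (g j) (v (L k))) ∧ k ≤ (v (L k)).1 := by
      intro k
      induction k with
      | zero => exact ⟨h0, Nat.zero_le _⟩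
      | succ k ih => exact ⟨h3 _ ih.1, Nat.succ_le_of_lt (ih.2.trans_lt (h4 _ ih.1))⟩
    set z := play b (fun c => σ (eL.symm c)) fun k => mv (L k) with hz
    have z1 : ∀ n, n % 2 = b → z n = σ (hist z n) := fun n hn => by
      rw [← eL.symm_apply_apply (hist _ _), hz, ← pc_eq]
      simp [play, ap, hn]
    have z2 : ∀ k, hist z (2 * k + s) = L k := by
      intro k
      induction k with
      | zero => exact (congrArg (hist z) (by ring)).trans (hl z z1)
      | succ k ih =>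
        have e1 : z (2 * k + s) = mv (L k) := by
          have a1 : ¬ (2 * k + s) % 2 = b := by omega
          have a2 : (2 * k + s) / 2 = k := by omega
          rw [hz]
          simp only [play, ap, if_neg a1, a2]
        rw [show 2 * (k + 1) + s = 2 * k + s + 1 + 1 by ring, hist_succ, z1 _ (by omega),
          hist_succ, ih, e1]
    have z3 : Desc Q (seq e c z) := fun n => ⟨(congrArg Q (seq_eq e c z n)).mpr (vQ _), step_le _ _ _⟩
    have z4 : ∀ k, seq e c z (2 * k + s) = v (L k) := fun k => by rw [seq_eq, z2]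
    have e2 : lim (seq e c z) = lim g := by
      ext i
      constructor
      · intro hi
        obtain ⟨⟨j, hj⟩, h6⟩ := h5 (i + 1)
        exact hg.mem_lim hj h6 (by rw [← z4 (i + 1)]; exact hi _)
      · intro hi n
        obtain ⟨⟨j, hj⟩, -⟩ := h5 n
        exact (z3.le (show n ≤ 2 * n + s by omega)).2.1 i
          (by rw [z4]; exact lim_subset hj hi)
    exact e2 ▸ h z z1

/-- Banach-Mazur dichotomy. -/
theorem decide (hD : ∀ X, ProjIn B X → Determined X) {e : ℕ → Cond}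
    (he : ∀ c, Q c ↔ ∃ n, e n = c) (hQ : ∀ c n, Q c → Q (n, c.2)) {c : Cond} (hc : Q c)
    {P : Set ℕ → Prop} (hP : Df B P) :
    Fc Q c (fun x => ¬ P x) ∨ ∃ d, Q d ∧ Le d c ∧ Fc Q d P := by
  have h0 : Df B e := df_nat e
  have h1 : Df B (seq e c) := Df.natRec (Df.const c) (by unfold step; fun_prop)
  rcases hD {z | P (lim (seq e c z))} (Df.projIn (hP.comp h1.lim)) with ⟨σ, h⟩ | ⟨τ, h⟩
  · refine Or.inr ⟨step e c (σ []), ?_, step_le _ _ _, fc_of_strategy he hQ hc (b := 0) (s := 1)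
      rfl (σ := σ) (l0 := [σ []]) (fun z hz => ?_) fun z hz => h z fun n => hz _ (by omega)⟩
    · unfold step
      split_ifs
      · exact (he _).2 ⟨_, rfl⟩
      · exact hc
    · rw [hist_succ, hz 0 rfl]
      rfl
  · exact Or.inl (fc_of_strategy he hQ hc (b := 1) (s := 0) rfl (σ := τ) (l0 := [])
      (fun _ _ => rfl) fun z hz => h z fun n => hz _ (by omega))

end Pool.Agent.Lib.MP_3c53be_lc
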