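import Pool.Agent.Lib.MP_3c53be_lc.Diag

/-! Two generic sets whose selected members differ and meet in an infinite set. -/

namespace Pool.Agent.Lib.MP_3c53be_lc

open Classical

variable {A : Set (Set ℕ)} {φ : Set ℕ → Set ℕ} {r : Rl} {B : Set Bs}

theorem countable_QQ (hc : {v | r v v}.Countable) : {c | QQ φ r c}.Countable := by
  refine (((Set.countable_univ (α := ℕ × ℕ)).prod hc).image
    fun p => ((p.1.1, glue (dk p.1.2).1 p.2) : Cond)).mono ?_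
  rintro c ⟨-, Y0, h1, m, h2⟩
  obtain ⟨j, -, -, -, h3⟩ := dk_spec (m, c.2) 0
  refine ⟨((c.1, j), Y0), ⟨trivial, h1⟩, Prod.ext rfl ?_⟩
  change glue (dk j).1 Y0 = c.2
  rw [h3]
  ext i
  exact ⟨fun h => h.elim And.right fun h => (h2 i h.1).2 h.2, fun h =>
    (lt_or_ge i m).imp (fun a => ⟨a, h⟩) fun a => ⟨a, (h2 i a).1 h⟩⟩

theorem Sel.qq_congr (h : Sel A φ) {c d : Cond} (hc : QQ φ r c) (m : ℕ)
    (hd : ∀ i, m ≤ i → (i ∈ d.2 ↔ i ∈ c.2)) : QQ φ r d := by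
  obtain ⟨h1, Y0, h2, m0, h3⟩ := hc
  exact ⟨fun h4 => h1 (h.sm_mono h4 m fun i a b => (hd i a).2 b), Y0, h2, max m m0, fun i hi =>
    (hd i (le_of_max_le_left hi)).trans (h3 i (le_of_max_le_right hi))⟩

/-- Generic sequences. -/
def Gn (φ : Set ℕ → Set ℕ) (r : Rl) (g : ℕ → Cond) : Prop :=
  (lim g).Infinite ∧
    (∀ k, ∃ m, Fc (QQ φ r) (g m) (fun x => ¬ k ∈ φ x) ∨ Fc (QQ φ r) (g m) fun x => k ∈ φ x) ∧
    ∀ m k, (Fc (QQ φ r) (g m) (fun x => ¬ k ∈ φ x) → k ∉ φ (lim g)) ∧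
      (Fc (QQ φ r) (g m) (fun x => k ∈ φ x) → k ∈ φ (lim g))

theorem decide_mem (hD : ∀ X, ProjIn B X → Determined X) (hφ : Df B φ) {e : ℕ → Cond}
    (he : ∀ c, QQ φ r c ↔ ∃ n, e n = c) {c : Cond} (hc : QQ φ r c) (k : ℕ) :
    Fc (QQ φ r) c (fun x => ¬ k ∈ φ x) ∨
      ∃ d, QQ φ r d ∧ Le d c ∧ Fc (QQ φ r) d fun x => k ∈ φ x :=
  decide hD he (fun _ _ h => h) hc (Df.mem (Df.const k) hφ)

theorem Sel.co_gn (h : Sel A φ) (hD : ∀ X, ProjIn B X → Determined X) (hφ : Df B φ)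
    {e : ℕ → Cond} (he : ∀ c, QQ φ r c ↔ ∃ n, e n = c) : Co (QQ φ r) (Gn φ r) := by
  have h1 : ∀ P : Set ℕ → Prop, ∀ n, Co (QQ φ r) fun g =>
      Fc (QQ φ r) (e n) P → (∃ m, Le (g m) (e n)) → P (lim g) := fun P n => by
    by_cases h1 : Fc (QQ φ r) (e n) P
    · exact h1.mono fun _ _ a _ => a
    · exact Co.of_forall he fun _ _ a => absurd a h1
  refine (((Co.all fun n : ℕ => Co.of_dense he (E := fun d => ∃ i, n ≤ i ∧ i < d.1 ∧ i ∈ d.2)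
    fun c hc => ?_).and (Co.all fun k : ℕ => Co.of_dense he (E := fun d =>
      Fc (QQ φ r) d (fun x => ¬ k ∈ φ x) ∨ Fc (QQ φ r) d fun x => k ∈ φ x) fun c hc => ?_)).and
    (Co.all fun p : ℕ × ℕ => (h1 (fun x => ¬ p.2 ∈ φ x) p.1).and
      (h1 (fun x => p.2 ∈ φ x) p.1))).mono ?_
  · obtain ⟨i, h2, h3, -⟩ := h.exists_not hc.1 h.sm_empty n
    exact ⟨(max c.1 (i + 1), c.2), hc, ⟨le_max_left _ _, fun _ a => a, fun _ _ a => a⟩, i, h2,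
      Nat.lt_of_succ_le (le_max_right _ _), h3⟩
  · rcases decide_mem hD hφ he hc k with h2 | ⟨d, h2, h3, h4⟩
    · exact ⟨c, hc, Le.refl c, Or.inl h2⟩
    · exact ⟨d, h2, h3, Or.inr h4⟩
  · rintro g hg ⟨⟨h2, h3⟩, h4⟩
    refine ⟨infinite_iff.2 fun n => ?_, fun k => ?_, fun m k => ?_⟩
    · obtain ⟨m, d, ⟨i, a1, a2, a3⟩, h5⟩ := h2 n
      exact ⟨i, a1, hg.mem_lim h5 a2 a3⟩
    · obtain ⟨m, d, h5, h6⟩ := h3 k
      exact ⟨m, h5.imp (fun a => a.anti h6) fun a => a.anti h6⟩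
    · obtain ⟨n, hn⟩ := (he (g m)).1 (hg m).1
      have h5 := h4 (n, k)
      rw [hn] at h5
      exact ⟨fun a => h5.1 a ⟨m, Le.refl _⟩, fun a => h5.2 a ⟨m, Le.refl _⟩⟩

theorem Sel.sm_outs (h : Sel A φ) (hG : Co (QQ φ r) (Gn φ r))
    (hA : ∀ j Y, r Y Y → r (opA φ r j Y) (opA φ r j Y)) {c : Cond} (hc : QQ φ r c) :
    Sm φ (outs φ r c) := by
  by_contra hn
  obtain ⟨-, Y0, h1, m, h2⟩ := hc
  obtain ⟨j, -, -, h3, h4⟩ := dk_spec (m, c.2) c.1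
  have h5 : opA φ r j Y0 = outs φ r c := by
    refine congrArg (outs φ r) (Prod.ext h3 ((h4 Y0).trans ?_))
    ext i
    exact ⟨fun h => h.elim And.right fun h => (h2 i h.1).2 h.2, fun h =>
      (lt_or_ge i m).imp (fun a => ⟨a, h⟩) fun a => ⟨a, (h2 i a).1 h⟩⟩
  have h6 : QQ φ r (c.1, glue c (outs φ r c)) :=
    h.qq_congr (c := (0, outs φ r c)) ⟨hn, _, h5 ▸ hA j Y0 h1, 0, fun _ _ => Iff.rfl⟩ c.1
      fun i hi => ⟨fun a => (a.resolve_left fun b => b.1.not_ge hi).2, fun a => Or.inr ⟨hi, a⟩⟩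
  obtain ⟨g, h7, h8, h9⟩ := hG.exists h6
  have h10 : Le (g 0) c := h8 ▸ ⟨le_rfl, fun i a => a.elim And.right fun b => b.2.1,
    fun i a b => Or.inl ⟨a, b⟩⟩
  refine (h.sel _ h9.1).2 ((Set.finite_Iio c.1).subset fun i hi => ?_)
  have h11 : i ∈ (g 0).2 := hi.2 0
  rw [h8] at h11
  exact h11.elim And.left fun a => absurd hi.1 ((h9.2.2 0 i).1 (a.2.2.anti h10))

/-- Two conditions with the same reservoir, inside `X`. -/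
def Tw (Q : Cond → Prop) (X : Set ℕ) (c c' : Cond) : Prop :=
  Q c ∧ Q c' ∧ c.2 ⊆ X ∧ c'.2 ⊆ X ∧ c.1 = c'.1 ∧ ∀ i, c.1 ≤ i → (i ∈ c.2 ↔ i ∈ c'.2)

theorem Tw.symm {Q : Cond → Prop} {X : Set ℕ} {c c' : Cond} (h : Tw Q X c c') : Tw Q X c' c :=
  ⟨h.2.1, h.1, h.2.2.2.1, h.2.2.1, h.2.2.2.2.1.symm, fun i hi =>
    (h.2.2.2.2.2 i (h.2.2.2.2.1 ▸ hi)).symm⟩

theorem Sel.tw_mix (h : Sel A φ) {X : Set ℕ} {f d : Cond} (hd : QQ φ r d) (h1 : f.1 ≤ d.1)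
    (h2 : f.2 ⊆ X) (h3 : d.2 ⊆ X) : Tw (QQ φ r) X (d.1, glue f (cut d.1 d.2)) d := by
  have h4 : ∀ i, d.1 ≤ i → (i ∈ glue f (cut d.1 d.2) ↔ i ∈ d.2) := fun i hi =>
    ⟨fun a => (a.resolve_left fun b => b.1.not_ge (h1.trans hi)).2.2,
      fun a => Or.inr ⟨h1.trans hi, hi, a⟩⟩
  exact ⟨h.qq_congr hd d.1 h4, hd, fun i a => a.elim (fun b => h2 b.2) fun b => h3 b.2.2, h3,
    rfl, h4⟩

theorem le_mix {f d : Cond} (h1 : f.1 ≤ d.1) (h2 : ∀ i, d.1 ≤ i → i ∈ d.2 → i ∈ f.2) :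
    Le (d.1, glue f (cut d.1 d.2)) f :=
  ⟨h1, fun i a => a.elim And.right fun b => h2 i b.2.1 b.2.2, fun _ a b => Or.inl ⟨a, b⟩⟩

theorem Sel.push (h : Sel A φ) {X : Set ℕ} {c c' d : Cond} (ht : Tw (QQ φ r) X c c')
    (hd : QQ φ r d) (h1 : Le d c') : ∃ u, Le u c ∧ Tw (QQ φ r) X u d := by
  have h2 : c.1 ≤ d.1 := ht.2.2.2.2.1 ▸ h1.1
  exact ⟨_, le_mix h2 fun i a b => (ht.2.2.2.2.2 i (h2.trans a)).2 (h1.2.1 i b),
    h.tw_mix hd h2 ht.2.2.1 fun i a => ht.2.2.2.1 (h1.2.1 i a)⟩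

theorem Sel.fusion (h : Sel A φ) (hr : WO r) {d : Cond} (hd : QQ φ r d) (h1 : d.2 ⊆ opB φ r)
    {k : ℕ} (h2 : Fc (QQ φ r) d fun x => k ∈ φ x) :
    ∃ f : Cond, Le f d ∧ Fc (QQ φ r) (f.1, glue f (opB φ r)) fun x => k ∈ φ x := by
  obtain ⟨x1, x2⟩ := h.xs_spec hr
  have hX := (h.diag_spec x1 x2).2
  obtain ⟨i, h3, h4, -⟩ := h.exists_not hd.1 h.sm_empty (max d.1 k)
  obtain ⟨j, a1, a2, a3, a4⟩ := dk_spec (i + 1, d.2) k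
  have a5 : j < JJ (i + 1) := a1 ((le_of_max_le_right h3).trans (Nat.le_succ i))
  have h5 : Le (i + 1, d.2) d :=
    ⟨(le_of_max_le_left h3).trans (Nat.le_succ i), fun _ a => a, fun _ _ a => a⟩
  obtain ⟨h6, Y0, h7, m, h8⟩ := hd
  obtain ⟨Y1, m1, b1, b2⟩ := fstep_spec hr (φ := φ) (j := j) (X := XS φ r j)
    ⟨Y0, max m (i + 1), h7, fun a => h6 (h.sm_mono a m fun i a b => (h8 i a).1 b),
      fun l a b => x1 a5.le (hX i (h1 h4) l (h1 ((h8 l (le_of_max_le_left a)).2 b))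
        (le_of_max_le_right a)), by
      rw [ap, a2, a3, a4]
      exact h2.anti ⟨h5.1, fun l a => a.elim And.right fun b =>
        (h8 l (le_of_max_le_left b.2.1)).2 b.2.2, fun l a b => Or.inl ⟨a.trans_le h5.1, b⟩⟩⟩
  have b3 := b1.2.2.2
  rw [ap, a2, a3, a4, ← b2] at b3
  exact ⟨_, h5, b3.anti ⟨le_rfl, fun l a => a.imp id fun b =>
    ⟨b.1, x1 (Nat.succ_le_of_lt a5) (hX i (h1 h4) l b.2 b.1)⟩,
    fun l a b => b.imp id fun b' => absurd a b'.1.not_gt⟩⟩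

theorem Sel.amalg (h : Sel A φ) (hr : WO r) {c c' d d' : Cond} (ht : Tw (QQ φ r) (opB φ r) c c')
    (hd : QQ φ r d) (h1 : Le d c) (hd' : QQ φ r d') (h1' : Le d' c') {k : ℕ}
    (h2 : Fc (QQ φ r) d fun x => k ∈ φ x) :
    ∃ u u', Le u c ∧ Le u' d' ∧ Tw (QQ φ r) (opB φ r) u u' ∧ Fc (QQ φ r) u fun x => k ∈ φ x := by
  obtain ⟨f, h3, h4⟩ := h.fusion hr hd (fun i a => ht.2.2.1 (h1.2.1 i a)) h2
  have h5 := h3.trans h1
  have h6 : d'.2 ⊆ opB φ r := fun i a => ht.2.2.2.1 (h1'.2.1 i a)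
  refine ⟨_, (max f.1 d'.1, d'.2), ?_, ⟨le_max_right _ _, fun _ a => a, fun _ _ a => a⟩,
    h.tw_mix (f := f) hd' (le_max_left _ _) (fun i a => ht.2.2.1 (h5.2.1 i a)) h6, h4.anti ?_⟩
  · exact ⟨h5.1.trans (le_max_left _ _), fun i a => a.elim (fun b => h5.2.1 i b.2) fun b =>
      (ht.2.2.2.2.2 i (h5.1.trans b.1)).2 (h1'.2.1 i b.2.2),
      fun i a b => Or.inl ⟨a.trans_le h5.1, h5.2.2 i a b⟩⟩
  · exact ⟨le_max_left _ _, fun i a => a.imp id fun b => ⟨b.1, h6 b.2.2⟩,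
      fun i a b => b.imp id fun b' => absurd a b'.1.not_gt⟩

theorem Sel.false (h : Sel A φ) (hD : ∀ X, ProjIn B X → Determined X) (hφ : Df B φ) : False := by
  obtain ⟨r, hr, hc, hn⟩ := exists_closed hD (df_newS hφ)
  obtain ⟨hB, hA⟩ := closed_of_new hr hn
  obtain ⟨x1, x2⟩ := h.xs_spec hr
  have hX : QQ φ r (0, opB φ r) := ⟨(h.diag_spec x1 x2).1, _, hB, 0, fun _ _ => Iff.rfl⟩
  obtain ⟨e, he⟩ := (countable_QQ (φ := φ) hc).exists_eq_range ⟨_, hX⟩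
  replace he : ∀ c, QQ φ r c ↔ ∃ n, e n = c := Set.ext_iff.1 he
  have hG := h.co_gn hD hφ he
  have hO := fun c => h.sm_outs hG hA (c := c)
  have hdec : ∀ c k, QQ φ r c → k ∈ c.2 → k ∉ outs φ r c →
      ∃ d, QQ φ r d ∧ Le d c ∧ Fc (QQ φ r) d fun x => k ∈ φ x := fun c k a b b' =>
    (decide_mem hD hφ he a k).resolve_left fun a' => b' ⟨b, a'⟩
  obtain ⟨g0, a1, a2, a3⟩ := hG.exists hX
  obtain ⟨j, -, a4, a5⟩ := h.exists_not hX.1 (h.sm_union (hO _ hX) (h.sm_mem (h.sel _ a3.1).1)) 0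
  obtain ⟨d, a6, a7, a8⟩ := hdec _ j hX a4 fun a => a5 (Or.inl a)
  obtain ⟨m, a9⟩ := a3.2.1 j
  replace a9 := a9.resolve_right fun a => a5 (Or.inr ((a3.2.2 m j).2 a))
  obtain ⟨u, u', -, b1, b2, b3⟩ := h.amalg hr (c := (0, opB φ r)) (c' := (0, opB φ r))
    ⟨hX, hX, le_rfl, le_rfl, rfl, fun _ _ => Iff.rfl⟩ a6 a7 (a1 m).1 (a2 ▸ a1.le (Nat.zero_le m)) a8
  obtain ⟨D, hD1, hD2⟩ := hG
  obtain ⟨s, s0, hs⟩ := exists_chain (P := fun p : Cond × Cond => Tw (QQ φ r) (opB φ r) p.1 p.2)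
    (E := fun n p q => Le q.1 p.1 ∧ Le q.2 p.2 ∧ (∃ j, Le q.1 (D n j)) ∧ (∃ j, Le q.2 (D n j)) ∧
      ∃ k, n ≤ k ∧ Fc (QQ φ r) q.1 (fun x => k ∈ φ x) ∧ Fc (QQ φ r) q.2 fun x => k ∈ φ x)
    (fun n p hp => by
      obtain ⟨i, c1, c2⟩ := hD1 n p.2 hp.2.1
      obtain ⟨v, c3, c4⟩ := h.push hp c1 c2
      obtain ⟨i', c5, c6⟩ := hD1 n v c4.1
      obtain ⟨v', c7, c8⟩ := h.push c4.symm c5 c6
      obtain ⟨k, c9, c10, c11⟩ := h.exists_not c8.1.1 (h.sm_union (hO _ c8.1) (hO _ c8.2.1))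
        (max n v'.1)
      obtain ⟨w', e1, e2, e3⟩ := hdec _ k c8.1 c10 fun a => c11 (Or.inl a)
      obtain ⟨w, e4, e5, e6⟩ := hdec _ k c8.2.1
        ((c8.2.2.2.2.2 k (le_of_max_le_right c9)).1 c10) fun a => c11 (Or.inr a)
      obtain ⟨y, y', f1, f2, f3, f4⟩ := h.amalg hr c8.symm e4 e5 e1 e2 e6
      exact ⟨(y, y'), f3, (f1.trans c6).trans c3, ((f2.trans e2).trans c7).trans c2, ⟨i', f1⟩,
        ⟨i, (f2.trans e2).trans c7⟩, k, le_of_max_le_left c9, f4, e3.anti f2⟩)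
    (x0 := (u, u')) b2
  have g1 := hD2 (fun n => (s n).1) (fun n => ⟨(hs n).1.1, (hs n).2.1⟩) fun n =>
    (hs n).2.2.2.1.elim fun j a => ⟨j, n + 1, a⟩
  have g2 := hD2 (fun n => (s n).2) (fun n => ⟨(hs n).1.2.1, (hs n).2.2.1⟩) fun n =>
    (hs n).2.2.2.2.1.elim fun j a => ⟨j, n + 1, a⟩
  refine infinite_iff.2 (fun n => ?_) (h.mad.2.1 _ (h.sel _ g1.1).1 _ (h.sel _ g2.1).1 fun e => ?_)
  · obtain ⟨k, c1, c2, c3⟩ := (hs n).2.2.2.2.2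
    exact ⟨k, c1, (g1.2.2 (n + 1) k).2 c2, (g2.2.2 (n + 1) k).2 c3⟩
  · refine (g2.2.2 0 j).1 ?_ (e ▸ (g1.2.2 0 j).2 ?_)
    · simpa only [s0] using a9.anti b1
    · simpa only [s0] using b3

end Pool.Agent.Lib.MP_3c53be_lc
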