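import Pool.Agent.Lib.MP_3c53be_lc.Force

/-! The canonical operations attached to a selector, and their definability. -/

set_option linter.unusedSectionVars false

namespace Pool.Agent.Lib.MP_3c53be_lc

open Classical

abbrev Rl := Set ℕ → Set ℕ → Prop

/-- Membership in the ideal generated by the fixed points of the selector. -/
def Sm (φ : Set ℕ → Set ℕ) (Y : Set ℕ) : Prop :=
  ∃ (g : ℕ → Set ℕ) (n : ℕ), (∀ i, (∀ k, ∃ m, k ≤ m ∧ m ∈ ap g i) ∧ φ (ap g i) = ap g i) ∧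
    ∀ m, m ∈ Y → n ≤ m → ∃ i, i < n ∧ m ∈ ap g i

/-- The conditions. -/
def QQ (φ : Set ℕ → Set ℕ) (r : Rl) (c : Cond) : Prop :=
  ¬ Sm φ c.2 ∧ ∃ Y0, r Y0 Y0 ∧ ∃ m, ∀ i, m ≤ i → (i ∈ c.2 ↔ i ∈ Y0)

def glue (c : Cond) (Y : Set ℕ) : Set ℕ := {i | (i < c.1 ∧ i ∈ c.2) ∨ (c.1 ≤ i ∧ i ∈ Y)}

def cut (m : ℕ) (Y : Set ℕ) : Set ℕ := {i | m ≤ i ∧ i ∈ Y}

theorem exists_dk : ∃ (dk : ℕ → Cond × ℕ) (J : ℕ → ℕ), Monotone J ∧ ∀ (c : Cond) (k : ℕ),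
    ∃ j, (k ≤ c.1 → j < J c.1) ∧ (dk j).1.1 = c.1 ∧ (dk j).2 = k ∧
      ∀ Y, glue (dk j).1 Y = glue c Y := by
  obtain ⟨e, he⟩ := exists_surjective_nat ((ℕ × Finset ℕ) × ℕ)
  choose f hf using he
  refine ⟨fun j => (((e j).1.1, ((e j).1.2 : Set ℕ)), (e j).2), fun n =>
    ((Finset.range (n + 1) ×ˢ (Finset.range n).powerset) ×ˢ Finset.range (n + 1)).sup
      fun p => f p + 1, fun n m h => Finset.sup_mono ?_, fun c k =>
    ⟨f ((c.1, (Finset.range c.1).filter (· ∈ c.2)), k), fun hk => ?_, ?_⟩⟩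
  · have h1 : Finset.range (n + 1) ⊆ Finset.range (m + 1) := Finset.range_mono (by omega)
    exact Finset.product_subset_product (Finset.product_subset_product h1
      (Finset.powerset_mono.2 (Finset.range_mono h))) h1
  · refine Finset.le_sup (f := fun p => f p + 1) ?_
    simp [hk]
  · simp only [hf, true_and]
    intro Y
    ext i
    simp [glue]

noncomputable def dk : ℕ → Cond × ℕ := exists_dk.choose

noncomputable def JJ : ℕ → ℕ := exists_dk.choose_spec.choose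

theorem JJ_mono : Monotone JJ := exists_dk.choose_spec.choose_spec.1

theorem dk_spec (c : Cond) (k : ℕ) : ∃ j, (k ≤ c.1 → j < JJ c.1) ∧ (dk j).1.1 = c.1 ∧
    (dk j).2 = k ∧ ∀ Y, glue (dk j).1 Y = glue c Y := exists_dk.choose_spec.choose_spec.2 c k

def least (r : Rl) (P : Set ℕ → Prop) : Set ℕ :=
  {i | ∃ Y0, P Y0 ∧ (∀ Y1, P Y1 → r Y0 Y1) ∧ i ∈ Y0}

theorem WO.least_spec {r : Rl} (h : WO r) {P : Set ℕ → Prop} (h1 : ∀ Y, P Y → r Y Y)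
    (h2 : ∃ Y, P Y) : P (Pool.Agent.Lib.MP_3c53be_lc.least r P) := by
  obtain ⟨Y, hY⟩ := h2
  obtain ⟨u, -, h3, h4⟩ := h.least (h1 Y hY) hY
  have e : Pool.Agent.Lib.MP_3c53be_lc.least r P = u := by
    ext i
    exact ⟨fun ⟨Y0, a1, a2, a3⟩ => h.anti _ _ (a2 u h3) (h4 Y0 (h1 _ a1) a1) ▸ a3,
      fun hi => ⟨u, h3, fun Y1 a => h4 Y1 (h1 _ a) a, hi⟩⟩
  exact e ▸ h3

/-- The elements of the reservoir that are forced out of the selected set. -/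
def outs (φ : Set ℕ → Set ℕ) (r : Rl) (c : Cond) : Set ℕ :=
  {k | k ∈ c.2 ∧ Fc (QQ φ r) c fun x => ¬ k ∈ φ x}

noncomputable def opA (φ : Set ℕ → Set ℕ) (r : Rl) (j : ℕ) (Y : Set ℕ) : Set ℕ :=
  outs φ r ((ap dk j).2, glue (ap dk j).1 Y)

def Pp (φ : Set ℕ → Set ℕ) (r : Rl) (j : ℕ) (X Y0 : Set ℕ) (m : ℕ) : Prop :=
  r Y0 Y0 ∧ ¬ Sm φ Y0 ∧ (∀ i, m ≤ i → i ∈ Y0 → i ∈ X) ∧
    Fc (QQ φ r) ((ap dk j).1.1, glue (ap dk j).1 (cut m Y0)) fun x => (ap dk j).2 ∈ φ x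

noncomputable def fstep (φ : Set ℕ → Set ℕ) (r : Rl) (j : ℕ) (X : Set ℕ) : Set ℕ :=
  if ∃ Y0 m, Pp φ r j X Y0 m then
    cut (sInf {m | Pp φ r j X (least r fun Y0 => ∃ m, Pp φ r j X Y0 m) m})
      (least r fun Y0 => ∃ m, Pp φ r j X Y0 m)
  else X

noncomputable def XS (φ : Set ℕ → Set ℕ) (r : Rl) (n : ℕ) : Set ℕ :=
  Nat.rec Set.univ (fstep φ r) n

def psi (Xs : ℕ → Set ℕ) (R : Set ℕ) : Set ℕ :=
  {m | ∃ i, m = sInf {m' | i ≤ m' ∧ m' ∈ ap Xs i ∧ ¬ m' ∈ R}}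

def RR (φ : Set ℕ → Set ℕ) (Xs : ℕ → Set ℕ) (l : ℕ) : Set ℕ :=
  Nat.rec ∅ (fun _ R => {m | m ∈ R ∨ m ∈ φ (psi Xs R)}) l

noncomputable def ii (φ : Set ℕ → Set ℕ) (Xs : ℕ → Set ℕ) (t : ℕ) : ℕ :=
  Nat.rec 0 (fun t i => sInf {m | i < m ∧ m ∈ φ (psi Xs (ap (RR φ Xs) t.unpair.1)) ∧
    m ∈ psi Xs (ap (RR φ Xs) t.unpair.1) ∧ m ∈ ap Xs (ap JJ (i + 1))}) t

def diag (φ : Set ℕ → Set ℕ) (Xs : ℕ → Set ℕ) : Set ℕ := {m | ∃ t, m = ap (ii φ Xs) (t + 1)}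

def opB (φ : Set ℕ → Set ℕ) (r : Rl) : Set ℕ := diag φ (XS φ r)

def badA (φ : Set ℕ → Set ℕ) (r : Rl) : Set ℕ :=
  least r fun Y => r Y Y ∧ ∃ j, ¬ r (opA φ r j Y) (opA φ r j Y)

noncomputable def newS (φ : Set ℕ → Set ℕ) (r : Rl) : Set ℕ :=
  if r (opB φ r) (opB φ r) then
    opA φ r (sInf {j | ¬ r (opA φ r j (badA φ r)) (opA φ r j (badA φ r))}) (badA φ r)
  else opB φ r

theorem closed_of_new {φ : Set ℕ → Set ℕ} {r : Rl} (h : WO r) (hn : r (newS φ r) (newS φ r)) :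
    r (opB φ r) (opB φ r) ∧ ∀ j Y, r Y Y → r (opA φ r j Y) (opA φ r j Y) := by
  have h1 : r (opB φ r) (opB φ r) := by
    by_contra h1
    rw [newS, if_neg h1] at hn
    exact h1 hn
  refine ⟨h1, fun j Y hY => ?_⟩
  by_contra h2
  rw [newS, if_pos h1] at hn
  exact Nat.sInf_mem (h.least_spec (P := fun Y => r Y Y ∧ ∃ j, ¬ r (opA φ r j Y) (opA φ r j Y))
    (fun _ a => a.1) ⟨Y, hY, j, h2⟩).2 hn

variable {B : Set Bs} {α : Type} [Cd α] {φ : Set ℕ → Set ℕ} {r : α → Rl}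

@[fun_prop] theorem Df.sm (hφ : Df B φ) {Y : α → Set ℕ} (hY : Df B Y) :
    Df B (fun a => Sm φ (Y a)) := by
  unfold Sm
  fun_prop

@[fun_prop] theorem Df.qq (hφ : Df B φ)
    (hr : Df B (fun p : α × Set ℕ × Set ℕ => r p.1 p.2.1 p.2.2)) {c : α → Cond} (hc : Df B c) :
    Df B (fun a => QQ φ (r a) (c a)) := by
  unfold QQ
  fun_prop

@[fun_prop] theorem Df.glue {c : α → Cond} (hc : Df B c) {Y : α → Set ℕ} (hY : Df B Y) :
    Df B (fun a => glue (c a) (Y a)) := by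
  unfold Pool.Agent.Lib.MP_3c53be_lc.glue
  fun_prop

@[fun_prop] theorem Df.cut {m : α → ℕ} (hm : Df B m) {Y : α → Set ℕ} (hY : Df B Y) :
    Df B (fun a => cut (m a) (Y a)) := by
  unfold Pool.Agent.Lib.MP_3c53be_lc.cut
  fun_prop

@[fun_prop] theorem Df.least (hr : Df B (fun p : α × Set ℕ × Set ℕ => r p.1 p.2.1 p.2.2))
    {P : α → Set ℕ → Prop} (hP : Df B (fun p : α × Set ℕ => P p.1 p.2)) :
    Df B (fun a => least (r a) (P a)) := by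
  unfold Pool.Agent.Lib.MP_3c53be_lc.least
  fun_prop

attribute [fun_prop] df_fc

@[fun_prop] theorem Df.opA (hφ : Df B φ)
    (hr : Df B (fun p : α × Set ℕ × Set ℕ => r p.1 p.2.1 p.2.2)) {j : α → ℕ} (hj : Df B j)
    {Y : α → Set ℕ} (hY : Df B Y) : Df B (fun a => opA φ (r a) (j a) (Y a)) := by
  unfold Pool.Agent.Lib.MP_3c53be_lc.opA outs
  fun_prop

@[fun_prop] theorem Df.pp (hφ : Df B φ)
    (hr : Df B (fun p : α × Set ℕ × Set ℕ => r p.1 p.2.1 p.2.2)) {j m : α → ℕ} (hj : Df B j)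
    {X Y : α → Set ℕ} (hX : Df B X) (hY : Df B Y) (hm : Df B m) :
    Df B (fun a => Pp φ (r a) (j a) (X a) (Y a) (m a)) := by
  unfold Pp
  fun_prop

theorem Df.xs (hφ : Df B φ) (hr : Df B (fun p : α × Set ℕ × Set ℕ => r p.1 p.2.1 p.2.2)) :
    Df B (fun a => XS φ (r a)) :=
  Df.natRec (h := fun a => fstep φ (r a)) (Df.const _) (by unfold fstep; fun_prop)

@[fun_prop] theorem Df.psi {X : α → ℕ → Set ℕ} (hX : Df B X) {R : α → Set ℕ} (hR : Df B R) :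
    Df B (fun a => psi (X a) (R a)) := by
  unfold Pool.Agent.Lib.MP_3c53be_lc.psi
  fun_prop

theorem df_diag (hφ : Df B φ) : Df B (diag φ) := by
  have h1 : Df B (RR φ) := Df.natRec (Df.const _) (by fun_prop)
  have h2 : Df B (fun p : (ℕ → Set ℕ) × ℕ => psi p.1 (ap (RR φ p.1) p.2.unpair.1)) :=
    Df.psi (by fun_prop) (Df.ap (h1.comp (by fun_prop))
      ((df_nat fun t => t.unpair.1).comp (by fun_prop)))
  have h3 : Df B (ii φ) := by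
    refine Df.natRec (Df.const _) (Df.sInf (Df.setOf ?_))
    have h4 := h2.comp (g := fun q : ((ℕ → Set ℕ) × ℕ × ℕ) × ℕ => (q.1.1, q.1.2.1)) (by fun_prop)
    exact Df.and (by fun_prop) (Df.and (Df.mem (by fun_prop) (hφ.comp h4))
      (Df.and (Df.mem (by fun_prop) h4) (by fun_prop)))
  exact Df.setOf (Df.exists (Df.eq (by fun_prop) (Df.ap (h3.comp (by fun_prop)) (by fun_prop))))

theorem df_newS (hφ : Df B φ) : Df B (fun w => newS φ (rel w)) := by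
  have hr := df_rel (B := B)
  have h1 : Df B (fun w => opB φ (rel w)) := (df_diag hφ).comp (Df.xs hφ hr)
  have h2 : Df B (fun w => badA φ (rel w)) := by
    unfold badA
    fun_prop
  have h3 : Df B (fun p : (ℕ → Prop × Set ℕ × Set ℕ) × ℕ =>
      opA φ (rel p.1) p.2 (badA φ (rel p.1))) :=
    Df.opA hφ (by fun_prop) (by fun_prop) (h2.comp (by fun_prop))
  refine Df.ite (hr.comp (Df.id.prodMk (h1.prodMk h1))) (Df.opA hφ hr (Df.sInf (Df.setOf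
    (Df.not ?_))) h2) h1
  exact hr.comp (Df.prodMk (by fun_prop) (h3.prodMk h3))

end Pool.Agent.Lib.MP_3c53be_lc
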